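import Pool.Agent.Q272.MF.Growth

/-! Construction of the points through binary digits, and the dimension bound. -/

namespace Q272.MF

open Filter

/-- Free positions. -/
def Free (τ : ℝ) (ρ i : ℕ) : Prop :=
  Even i ∧ ∃ k, 1 ≤ k ∧ ⌊τ * (ρ : ℝ) ^ k⌋₊ < i ∧ i + 1 < ρ ^ (k + 1)

/-- Positions of forced ones. -/
def One (τ : ℝ) (ρ i : ℕ) : Prop := ∃ k, 1 ≤ k ∧ (i + 1 = ρ ^ k ∨ i = ⌊τ * (ρ : ℝ) ^ k⌋₊)

open Classical in
/-- The digit sequence attached to a free sequence `y`. -/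
noncomputable def dig (τ : ℝ) (ρ : ℕ) (y : ℕ → Fin 2) (i : ℕ) : Fin 2 :=
  if One τ ρ i then 1 else if Free τ ρ i then y (Nat.count (Free τ ρ) i) else 0

/-- General lemma about dyadic approximation from digits. -/
theorem approx_of_digits (a : ℕ → Fin 2) {b c : ℕ} (hb : 1 ≤ b) (hbc : b ≤ c)
    (h1 : a (b - 1) = 1) (h0 : ∀ i, b ≤ i → i < c → a i = 0) (hc : a c = 1) :
    ∃ p : ℕ, ∃ β : ℝ, Odd p ∧ Real.ofDigits a = p / (2:ℝ) ^ b + β ∧
      ((2:ℝ) ^ (c + 1))⁻¹ ≤ β ∧ β ≤ ((2:ℝ) ^ c)⁻¹ := by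
  obtain ⟨b', rfl⟩ : ∃ b', b = b' + 1 := ⟨b - 1, by omega⟩
  refine ⟨∑ i ∈ Finset.range (b' + 1), (a i : ℕ) * 2 ^ (b' - i),
    ((2:ℝ) ^ c)⁻¹ * Real.ofDigits (fun i => a (i + c)), ?_, ?_, ?_, ?_⟩
  · rw [Finset.sum_range_succ]
    simp only [Nat.add_sub_cancel] at h1
    rw [h1, Nat.sub_self, pow_zero]
    apply Even.add_odd
    · apply Finset.even_sum
      intro i hi
      rw [Finset.mem_range] at hi
      apply Even.mul_left
      exact (Nat.even_pow.2 ⟨even_two, by omega⟩)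
    · simp
  · rw [Real.ofDigits_eq_sum_add_ofDigits a c]
    push_cast
    congr 1
    rw [← Finset.sum_range_add_sum_Ico _ hbc, Finset.sum_div]
    have h2 : ∑ i ∈ Finset.Ico (b' + 1) c, Real.ofDigitsTerm a i = 0 := by
      apply Finset.sum_eq_zero
      intro i hi
      rw [Finset.mem_Ico] at hi
      rw [Real.ofDigitsTerm, h0 i hi.1 hi.2]
      simp
    rw [h2, add_zero]
    refine Finset.sum_congr rfl fun i hi => ?_
    rw [Finset.mem_range] at hi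
    rw [Real.ofDigitsTerm]
    have h3 : (2:ℝ) ^ (b' + 1) = 2 ^ (i + 1) * 2 ^ (b' - i) := by
      rw [← pow_add]; congr 1; omega
    rw [h3]
    push_cast
    field_simp
  · rw [pow_succ, mul_inv]
    refine mul_le_mul_of_nonneg_left ?_ (by positivity)
    rw [Real.ofDigits_eq_sum_add_ofDigits _ 1]
    rw [Finset.sum_range_one, Real.ofDigitsTerm]
    simp only [zero_add, hc]
    have := Real.ofDigits_nonneg (fun i => a (i + 1 + c))
    have h5 : 0 ≤ (((2:ℕ):ℝ) ^ 1)⁻¹ * Real.ofDigits (fun i => a (i + 1 + c)) := by positivity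
    norm_num at h5 ⊢
    linarith
  · have := Real.ofDigits_le_one (fun i => a (i + c))
    have h6 : (0:ℝ) < ((2:ℝ) ^ c)⁻¹ := by positivity
    nlinarith

/-- Separation from the first differing digit. -/
theorem separation (a a' : ℕ → Fin 2) {n : ℕ} (h1 : ∀ i < n, a i = a' i) (h2 : a n ≠ a' n)
    (h3 : a (n + 1) = a' (n + 1)) :
    ((2:ℝ) ^ (n + 2))⁻¹ ≤ |Real.ofDigits a - Real.ofDigits a'| := by
  rw [Real.ofDigits_eq_sum_add_ofDigits a (n + 2), Real.ofDigits_eq_sum_add_ofDigits a' (n + 2)]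
  rw [Finset.sum_range_succ, Finset.sum_range_succ, Finset.sum_range_succ, Finset.sum_range_succ]
  have h4 : ∑ i ∈ Finset.range n, Real.ofDigitsTerm a i =
      ∑ i ∈ Finset.range n, Real.ofDigitsTerm a' i :=
    Finset.sum_congr rfl fun i hi => by simp [Real.ofDigitsTerm, h1 i (Finset.mem_range.mp hi)]
  have h5 : Real.ofDigitsTerm a (n + 1) = Real.ofDigitsTerm a' (n + 1) := by
    simp [Real.ofDigitsTerm, h3]
  rw [h4, h5]
  set t := Real.ofDigits (fun i => a (i + (n + 2))) with ht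
  set t' := Real.ofDigits (fun i => a' (i + (n + 2))) with ht'
  have ht0 : 0 ≤ t := Real.ofDigits_nonneg _
  have ht1 : t ≤ 1 := Real.ofDigits_le_one _
  have ht0' : 0 ≤ t' := Real.ofDigits_nonneg _
  have ht1' : t' ≤ 1 := Real.ofDigits_le_one _
  have hkey : |Real.ofDigitsTerm a n - Real.ofDigitsTerm a' n| = 2 * ((2:ℝ) ^ (n + 2))⁻¹ := by
    have h6 : |((a n : ℕ) : ℝ) - ((a' n : ℕ) : ℝ)| = 1 := by
      generalize a n = u at h2 ⊢
      generalize a' n = v at h2 ⊢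
      fin_cases u <;> fin_cases v <;> simp_all
    rw [Real.ofDigitsTerm, Real.ofDigitsTerm, ← sub_mul, abs_mul, h6, one_mul,
      abs_of_nonneg (by positivity), pow_succ _ (n + 1)]
    push_cast
    field_simp
  have hq : (0:ℝ) < ((2:ℝ) ^ (n + 2))⁻¹ := by positivity
  set q := ((2:ℝ) ^ (n + 2))⁻¹ with hqd
  have h7 : ∑ i ∈ Finset.range n, Real.ofDigitsTerm a' i + Real.ofDigitsTerm a n +
      Real.ofDigitsTerm a' (n + 1) + (((2:ℕ):ℝ) ^ (n + 2))⁻¹ * t -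
      (∑ i ∈ Finset.range n, Real.ofDigitsTerm a' i + Real.ofDigitsTerm a' n +
      Real.ofDigitsTerm a' (n + 1) + (((2:ℕ):ℝ) ^ (n + 2))⁻¹ * t') =
      (Real.ofDigitsTerm a n - Real.ofDigitsTerm a' n) - q * (t' - t) := by
    rw [hqd]; push_cast; ring
  rw [h7]
  have h8 : |q * (t' - t)| ≤ q := by
    rw [abs_mul, abs_of_pos hq]
    have : |t' - t| ≤ 1 := by rw [abs_le]; constructor <;> linarith
    nlinarith
  have h9 := abs_sub_abs_le_abs_sub (Real.ofDigitsTerm a n - Real.ofDigitsTerm a' n) (q * (t' - t))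
  rw [hkey] at h9
  linarith

section

variable {τ : ℝ} {ρ : ℕ}

theorem c_ge (hτ : 5 ≤ τ) {k : ℕ} : ρ ^ k ≤ ⌊τ * (ρ : ℝ) ^ k⌋₊ := by
  apply Nat.le_floor
  push_cast
  have : (0:ℝ) ≤ (ρ : ℝ) ^ k := by positivity
  nlinarith

theorem c_lt (h1 : τ < ρ) (hρ : 0 < ρ) {k : ℕ} (hτ : 5 ≤ τ) :
    ⌊τ * (ρ : ℝ) ^ k⌋₊ < ρ ^ (k + 1) := by
  have hρ' : (0:ℝ) < ρ := by exact_mod_cast hρ
  rw [Nat.floor_lt (by positivity)]
  push_cast
  rw [pow_succ, mul_comm]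
  exact mul_lt_mul_of_pos_left h1 (by positivity)

theorem not_one_of_free (hτ : 5 ≤ τ) (hρ : 0 < ρ) {i : ℕ} (h : Free τ ρ i) : ¬ One τ ρ i := by
  obtain ⟨_, k, hk, h2, h3⟩ := h
  rintro ⟨l, hl, h4⟩
  have hρ' : (1:ℝ) ≤ ρ := by exact_mod_cast hρ
  rcases Nat.lt_or_ge k l with hkl | hkl
  · have h5 : ρ ^ (k + 1) ≤ ρ ^ l := Nat.pow_le_pow_right hρ hkl
    have h6 : ρ ^ l ≤ ⌊τ * (ρ : ℝ) ^ l⌋₊ := c_ge hτ
    rcases h4 with h4 | h4 <;> omega
  · have h5 : ρ ^ l ≤ ρ ^ k := Nat.pow_le_pow_right hρ hkl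
    have h6 : ρ ^ k ≤ ⌊τ * (ρ : ℝ) ^ k⌋₊ := c_ge hτ
    have h7 : ⌊τ * (ρ : ℝ) ^ l⌋₊ ≤ ⌊τ * (ρ : ℝ) ^ k⌋₊ := by
      apply Nat.floor_le_floor
      have : (ρ : ℝ) ^ l ≤ (ρ : ℝ) ^ k := pow_le_pow_right₀ hρ' hkl
      have hτ0 : 0 ≤ τ := by linarith
      gcongr
    rcases h4 with h4 | h4 <;> omega

theorem gap_zero (hτ : 5 ≤ τ) (h1 : τ < ρ) {k : ℕ} {i : ℕ}
    (hi1 : ρ ^ k ≤ i) (hi2 : i < ⌊τ * (ρ : ℝ) ^ k⌋₊) (y : ℕ → Fin 2) : dig τ ρ y i = 0 := by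
  have hρ : 0 < ρ := by
    have : (0:ℝ) < ρ := by linarith
    exact_mod_cast this
  have hρ' : (1:ℝ) ≤ ρ := by exact_mod_cast hρ
  have hτ0 : 0 ≤ τ := by linarith
  have hck : ⌊τ * (ρ : ℝ) ^ k⌋₊ < ρ ^ (k + 1) := c_lt h1 hρ hτ
  have hmono : ∀ l m : ℕ, l ≤ m → ⌊τ * (ρ : ℝ) ^ l⌋₊ ≤ ⌊τ * (ρ : ℝ) ^ m⌋₊ := by
    intro l m hlm
    apply Nat.floor_le_floor
    have : (ρ : ℝ) ^ l ≤ (ρ : ℝ) ^ m := pow_le_pow_right₀ hρ' hlm
    gcongr
  have hno : ¬ One τ ρ i := by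
    rintro ⟨l, hl, h4⟩
    rcases Nat.lt_or_ge k l with hkl | hkl
    · have h5 : ρ ^ (k + 1) ≤ ρ ^ l := Nat.pow_le_pow_right hρ hkl
      have h6 : ρ ^ l ≤ ⌊τ * (ρ : ℝ) ^ l⌋₊ := c_ge hτ
      rcases h4 with h4 | h4 <;> omega
    · rcases h4 with h4 | h4
      · have h5 : ρ ^ l ≤ ρ ^ k := Nat.pow_le_pow_right hρ hkl
        omega
      · rcases Nat.lt_or_ge l k with hlk | hlk
        · have h5 : ⌊τ * (ρ : ℝ) ^ l⌋₊ < ρ ^ (l + 1) := c_lt h1 hρ hτ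
          have h6 : ρ ^ (l + 1) ≤ ρ ^ k := Nat.pow_le_pow_right hρ hlk
          omega
        · have : l = k := le_antisymm hkl hlk
          subst this
          omega
  have hnf : ¬ Free τ ρ i := by
    rintro ⟨_, l, hl, h2, h3⟩
    rcases Nat.lt_or_ge l k with hlk | hlk
    · have h6 : ρ ^ (l + 1) ≤ ρ ^ k := Nat.pow_le_pow_right hρ hlk
      omega
    · have := hmono k l hlk
      omega
  rw [dig, if_neg hno, if_neg hnf]

theorem good_dig (hτ : 5 ≤ τ) (h1 : τ < ρ) (y : ℕ → Fin 2) :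
    Good τ ρ (Real.ofDigits (dig τ ρ y)) := by
  have hρ : 0 < ρ := by
    have : (0:ℝ) < ρ := by linarith
    exact_mod_cast this
  intro k hk
  have hb : 1 ≤ ρ ^ k := Nat.one_le_pow _ _ hρ
  obtain ⟨p, β, hp, hx, hβ1, hβ2⟩ := approx_of_digits (dig τ ρ y) (b := ρ ^ k)
    (c := ⌊τ * (ρ : ℝ) ^ k⌋₊) hb (c_ge hτ)
    (by rw [dig, if_pos ⟨k, hk, Or.inl (by omega)⟩])
    (fun i hi1 hi2 => gap_zero hτ h1 hi1 hi2 y)
    (by rw [dig, if_pos ⟨k, hk, Or.inr rfl⟩])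
  have hτρ : (0:ℝ) ≤ τ * (ρ : ℝ) ^ k := by positivity
  have hQ : ((Qk ρ k : ℕ) : ℝ) = (2:ℝ) ^ (ρ ^ k) := by unfold Qk; push_cast; rfl
  have hQτ : ((Qk ρ k : ℕ) : ℝ) ^ (-τ) = (2:ℝ) ^ (-(τ * (ρ : ℝ) ^ k)) := by
    rw [hQ, ← Real.rpow_natCast, ← Real.rpow_mul (by norm_num)]
    congr 1
    push_cast
    ring
  refine ⟨p, β, hp, ?_, ?_, ?_⟩
  · rw [hQ]; exact hx
  · refine le_trans ?_ hβ1
    rw [hQτ, ← Real.rpow_natCast (2:ℝ) (⌊τ * (ρ : ℝ) ^ k⌋₊ + 1), ← Real.rpow_neg (by norm_num)]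
    have h3 : (2:ℝ) ^ (-(τ * (ρ : ℝ) ^ k)) / 2 = (2:ℝ) ^ (-(τ * (ρ : ℝ) ^ k) - 1) := by
      rw [Real.rpow_sub_one (by norm_num)]
    rw [h3]
    apply Real.rpow_le_rpow_of_exponent_le (by norm_num)
    push_cast
    have := Nat.floor_le hτρ
    linarith
  · refine hβ2.trans ?_
    rw [hQτ, ← Real.rpow_natCast (2:ℝ) (⌊τ * (ρ : ℝ) ^ k⌋₊), ← Real.rpow_neg (by norm_num)]
    have h3 : 2 * (2:ℝ) ^ (-(τ * (ρ : ℝ) ^ k)) = (2:ℝ) ^ (-(τ * (ρ : ℝ) ^ k) + 1) := by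
      rw [Real.rpow_add_one (by norm_num)]; ring
    rw [h3]
    apply Real.rpow_le_rpow_of_exponent_le (by norm_num)
    have := Nat.lt_floor_add_one (τ * (ρ : ℝ) ^ k)
    linarith

theorem dig_zero (hτ : 5 ≤ τ) (h1 : τ < ρ) (y : ℕ → Fin 2) : dig τ ρ y 0 = 0 := by
  have hρ5 : 5 < ρ := by
    have : (5:ℝ) < ρ := by linarith
    exact_mod_cast this
  have hno : ¬ One τ ρ 0 := by
    rintro ⟨l, hl, h4⟩
    have h5 : ρ ≤ ρ ^ l := Nat.le_self_pow (by omega) ρ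
    have h6 : ρ ^ l ≤ ⌊τ * (ρ : ℝ) ^ l⌋₊ := c_ge hτ
    rcases h4 with h4 | h4 <;> omega
  have hnf : ¬ Free τ ρ 0 := by
    rintro ⟨_, l, hl, h2, h3⟩
    omega
  rw [dig, if_neg hno, if_neg hnf]

theorem dig_mem (hτ : 5 ≤ τ) (h1 : τ < ρ) (y : ℕ → Fin 2) :
    0 ≤ Real.ofDigits (dig τ ρ y) ∧ Real.ofDigits (dig τ ρ y) < 1 := by
  refine ⟨Real.ofDigits_nonneg _, ?_⟩
  rw [Real.ofDigits_eq_sum_add_ofDigits _ 1, Finset.sum_range_one, Real.ofDigitsTerm,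
    dig_zero hτ h1]
  have := Real.ofDigits_le_one (fun i => dig τ ρ y (i + 1))
  have h5 : (((2:ℕ):ℝ) ^ 1)⁻¹ * Real.ofDigits (fun i => dig τ ρ y (i + 1)) ≤ 1 / 2 := by
    push_cast
    linarith
  have h6 : ((((0 : Fin 2) : ℕ) : ℝ) * (((2:ℕ):ℝ) ^ (0 + 1))⁻¹) = 0 := by simp
  rw [h6]
  linarith

open Classical in
theorem count_lower {k : ℕ} (hk : 1 ≤ k) :
    (ρ ^ (k + 1) - ⌊τ * (ρ : ℝ) ^ k⌋₊ - 2) / 2 ≤ Nat.count (Free τ ρ) (ρ ^ (k + 1)) := by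
  set c := ⌊τ * (ρ : ℝ) ^ k⌋₊ with hc
  set b := ρ ^ (k + 1) with hb
  set m := (b - c - 2) / 2 with hm
  rw [Nat.count_eq_card_filter_range]
  have h1 : (Finset.range m).image (fun i => 2 * (c / 2 + 1 + i)) ⊆
      (Finset.range b).filter (Free τ ρ) := by
    intro z hz
    rw [Finset.mem_image] at hz
    obtain ⟨i, hi, rfl⟩ := hz
    rw [Finset.mem_range] at hi
    rw [Finset.mem_filter, Finset.mem_range]
    refine ⟨by omega, ⟨_, two_mul _⟩, k, hk, ?_, ?_⟩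
    · rw [← hc]; omega
    · rw [← hb]; omega
  have h2 := Finset.card_le_card h1
  rw [Finset.card_image_of_injective _ (by intro a b hab; simp only at hab; omega),
    Finset.card_range] at h2
  exact h2

open Classical in
theorem free_le (hτ : 5 ≤ τ) (h1 : τ < ρ) (h2 : (ρ : ℝ) ≤ τ + 1) {n : ℕ} (hn : Free τ ρ n) :
    (n : ℝ) ≤ (3 * (ρ : ℝ) ^ 2 / (ρ - τ)) * (Nat.count (Free τ ρ) n + 1) := by
  obtain ⟨_, k, hk, h3, h4⟩ := hn
  have hρτ : 0 < (ρ : ℝ) - τ := by linarith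
  have hρ0 : (0:ℝ) < ρ := by linarith
  have hρ : 0 < ρ := by exact_mod_cast hρ0
  rw [div_mul_eq_mul_div, le_div_iff₀ hρτ]
  have h5 : (n : ℝ) ≤ (ρ : ℝ) ^ (k + 1) := by
    have : n ≤ ρ ^ (k + 1) := by omega
    exact_mod_cast this
  have hcnt : (0:ℝ) ≤ Nat.count (Free τ ρ) n := Nat.cast_nonneg _
  rcases Nat.lt_or_ge 1 k with hk1 | hk1
  · obtain ⟨l, rfl⟩ : ∃ l, k = l + 1 := ⟨k - 1, by omega⟩
    have h6 := count_lower (τ := τ) (ρ := ρ) (k := l) (by omega)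
    have h7 : Nat.count (Free τ ρ) (ρ ^ (l + 1)) ≤ Nat.count (Free τ ρ) n := by
      apply Nat.count_monotone
      have : ρ ^ (l + 1) ≤ ⌊τ * (ρ : ℝ) ^ (l + 1)⌋₊ := c_ge hτ
      omega
    have h8 : ρ ^ (l + 1) ≤ ⌊τ * (ρ : ℝ) ^ l⌋₊ + 2 * Nat.count (Free τ ρ) n + 3 := by omega
    have h9 : (ρ : ℝ) ^ (l + 1) ≤ τ * (ρ : ℝ) ^ l + 2 * Nat.count (Free τ ρ) n + 3 := by
      have h10 : ((ρ ^ (l + 1) : ℕ) : ℝ) ≤
        ((⌊τ * (ρ : ℝ) ^ l⌋₊ + 2 * Nat.count (Free τ ρ) n + 3 : ℕ) : ℝ) := by exact_mod_cast h8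
      push_cast at h10
      have := Nat.floor_le (by positivity : (0:ℝ) ≤ τ * (ρ : ℝ) ^ l)
      linarith
    have h10 : (ρ : ℝ) ^ l * (ρ - τ) ≤ 3 * (Nat.count (Free τ ρ) n + 1) := by
      have : (ρ : ℝ) ^ l * (ρ - τ) = (ρ : ℝ) ^ (l + 1) - τ * (ρ : ℝ) ^ l := by ring
      rw [this]; linarith
    calc (n : ℝ) * (ρ - τ) ≤ (ρ : ℝ) ^ (l + 1 + 1) * (ρ - τ) := by gcongr
      _ = (ρ : ℝ) ^ 2 * ((ρ : ℝ) ^ l * (ρ - τ)) := by ring
      _ ≤ (ρ : ℝ) ^ 2 * (3 * (Nat.count (Free τ ρ) n + 1)) := by gcongr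
      _ = 3 * (ρ : ℝ) ^ 2 * (Nat.count (Free τ ρ) n + 1) := by ring
  · have hk2 : k = 1 := by omega
    subst hk2
    calc (n : ℝ) * (ρ - τ) ≤ (ρ : ℝ) ^ (1 + 1) * 1 := by
          apply mul_le_mul h5 (by linarith) hρτ.le (by positivity)
      _ ≤ 3 * (ρ : ℝ) ^ 2 * (0 + 1) := by
          rw [show (1 + 1 : ℕ) = 2 by norm_num]
          nlinarith [sq_nonneg (ρ : ℝ)]
      _ ≤ 3 * (ρ : ℝ) ^ 2 * (Nat.count (Free τ ρ) n + 1) := by gcongr

theorem infinite_free (hτ : 5 ≤ τ) (h1 : τ < ρ) : {i | Free τ ρ i}.Infinite := by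
  have hρτ : 0 < (ρ : ℝ) - τ := by linarith
  have hρ1 : (1:ℝ) < ρ := by linarith
  rw [Set.infinite_iff_exists_gt]
  intro N
  have ht : Tendsto (fun k => (ρ : ℝ) ^ k) atTop atTop := tendsto_pow_atTop_atTop_of_one_lt hρ1
  have ht2 : Tendsto (fun k => (ρ : ℝ) ^ k * (ρ - τ)) atTop atTop := ht.atTop_mul_const hρτ
  obtain ⟨k, hk1, hk2, hk3⟩ := ((ht.eventually_ge_atTop (N : ℝ)).and
    ((ht2.eventually_ge_atTop 4).and (eventually_ge_atTop 1))).exists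
  set c := ⌊τ * (ρ : ℝ) ^ k⌋₊ with hc
  have hcN : N ≤ c := by
    have h2 : ρ ^ k ≤ c := c_ge hτ
    have h3 : N ≤ ρ ^ k := by exact_mod_cast hk1
    omega
  have hcb : c + 4 ≤ ρ ^ (k + 1) := by
    have h4 : (c : ℝ) ≤ τ * (ρ : ℝ) ^ k := Nat.floor_le (by positivity)
    have h5 : (c : ℝ) + 4 ≤ (ρ : ℝ) ^ (k + 1) := by
      rw [pow_succ]; nlinarith
    exact_mod_cast h5
  refine ⟨2 * (c / 2 + 1), ⟨⟨_, two_mul _⟩, k, hk3, by rw [← hc]; omega, by omega⟩, by omega⟩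

end

/-- An abstract dimension bound. -/
theorem dim_lower {X : Type*} [Nonempty X] (φ ψ : X → ℝ) {C r : NNReal} (hr : 0 < r)
    (h : ∀ u v, |ψ u - ψ v| ≤ C * |φ u - φ v| ^ (r : ℝ)) (hψ : Set.Icc 0 1 ⊆ Set.range ψ) :
    0 < dimH (Set.range φ) := by
  set f : ℝ → ℝ := fun x => ψ (Function.invFun φ x) with hf
  have hfφ : ∀ u, f (φ u) = ψ u := by
    intro u
    have h1 : φ (Function.invFun φ (φ u)) = φ u := Function.invFun_eq ⟨u, rfl⟩
    have h2 := h (Function.invFun φ (φ u)) u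
    rw [h1, sub_self, abs_zero, Real.zero_rpow (by exact_mod_cast hr.ne'), mul_zero] at h2
    exact sub_eq_zero.1 (abs_nonpos_iff.1 h2)
  have hH : HolderOnWith C r f (Set.range φ) := by
    rintro _ ⟨u, rfl⟩ _ ⟨v, rfl⟩
    rw [hfφ, hfφ, edist_dist, edist_dist, Real.dist_eq, Real.dist_eq,
      ENNReal.ofReal_rpow_of_nonneg (abs_nonneg _) r.coe_nonneg]
    rw [← ENNReal.ofReal_coe_nnreal, ← ENNReal.ofReal_mul C.coe_nonneg]
    exact ENNReal.ofReal_le_ofReal (h u v)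
  have h1 := hH.dimH_image_le hr
  have h2 : Set.Icc (0:ℝ) 1 ⊆ f '' Set.range φ := by
    intro z hz
    obtain ⟨u, rfl⟩ := hψ hz
    exact ⟨φ u, ⟨u, rfl⟩, hfφ u⟩
  have h3 : dimH (Set.Icc (0:ℝ) 1) = 1 := by
    rw [Real.dimH_of_nonempty_interior (by rw [interior_Icc]; exact ⟨1/2, by norm_num, by norm_num⟩)]
    simp
  have h4 : (1 : ENNReal) ≤ dimH (Set.range φ) / r := by
    rw [← h3]; exact (dimH_mono h2).trans h1
  rw [pos_iff_ne_zero]
  intro h5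
  rw [h5] at h4
  simp at h4

theorem dim_pos {τ : ℝ} {ρ : ℕ} (hτ : 5 ≤ τ) (h1 : τ < ρ) (h2 : (ρ : ℝ) ≤ τ + 1) :
    0 < dimH (Set.range fun y => Real.ofDigits (dig τ ρ y)) := by
  classical
  have hρτ : 0 < (ρ : ℝ) - τ := by linarith
  have hρ0 : (0:ℝ) < ρ := by linarith
  have hρ : 0 < ρ := by exact_mod_cast hρ0
  set A : ℝ := 3 * (ρ : ℝ) ^ 2 / (ρ - τ) with hA
  have hApos : 0 < A := by positivity
  have hA1 : 1 ≤ A := by
    rw [hA, le_div_iff₀ hρτ]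
    nlinarith
  have hrpos : 0 < (1 / A).toNNReal := by
    rw [Real.toNNReal_pos]; positivity
  have hr : (((1 / A).toNNReal : NNReal) : ℝ) = 1 / A := Real.coe_toNNReal _ (by positivity)
  refine dim_lower (C := 8) (r := (1 / A).toNNReal) (fun y => Real.ofDigits (dig τ ρ y))
    (fun y => Real.ofDigits y) hrpos ?_ ?_
  · intro y y'
    rw [hr]
    by_cases hyy : y = y'
    · subst hyy
      simp only [sub_self, abs_zero]
      positivity
    · -- first differing index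
      have hex : ∃ j, y j ≠ y' j := by
        by_contra hcon
        apply hyy
        funext j
        by_contra hj
        exact hcon ⟨j, hj⟩
      set j := Nat.find hex with hj
      have hj1 : y j ≠ y' j := Nat.find_spec hex
      have hj2 : ∀ i < j, y i = y' i := by
        intro i hi
        by_contra hcon
        exact Nat.find_min hex hi hcon
      have hinf := infinite_free (ρ := ρ) hτ h1
      set n := Nat.nth (Free τ ρ) j with hn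
      have hfree : Free τ ρ n := Nat.nth_mem_of_infinite hinf j
      have hcount : Nat.count (Free τ ρ) n = j := Nat.count_nth_of_infinite hinf j
      have hsep : ((2:ℝ) ^ (n + 2))⁻¹ ≤
          |Real.ofDigits (dig τ ρ y) - Real.ofDigits (dig τ ρ y')| := by
        apply separation
        · intro i hi
          unfold dig
          by_cases hone : One τ ρ i
          · rw [if_pos hone, if_pos hone]
          · rw [if_neg hone, if_neg hone]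
            by_cases hfr : Free τ ρ i
            · rw [if_pos hfr, if_pos hfr]
              apply hj2
              rw [← hcount]
              exact Nat.count_strict_mono hfr hi
            · rw [if_neg hfr, if_neg hfr]
        · have hone := not_one_of_free hτ hρ hfree
          unfold dig
          rw [if_neg hone, if_neg hone, if_pos hfree, if_pos hfree, hcount]
          exact hj1
        · have hfr : ¬ Free τ ρ (n + 1) := by
            rintro ⟨h3, _⟩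
            have h4 : Even n := hfree.1
            rw [Nat.even_add_one] at h3
            exact h3 h4
          unfold dig
          rw [if_neg hfr, if_neg hfr]
      have hup : |Real.ofDigits y - Real.ofDigits y'| ≤ (((2:ℕ):ℝ) ^ j)⁻¹ :=
        Real.abs_ofDigits_sub_ofDigits_le hj2
      refine hup.trans ?_
      have hnA : (n : ℝ) ≤ A * (j + 1) := by
        have := free_le hτ h1 h2 hfree
        rwa [hcount] at this
      have h5 : (((2:ℝ) ^ (n + 2))⁻¹) ^ (1 / A) ≤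
          |Real.ofDigits (dig τ ρ y) - Real.ofDigits (dig τ ρ y')| ^ (1 / A) :=
        Real.rpow_le_rpow (by positivity) hsep (by positivity)
      have h6 : (((2:ℕ):ℝ) ^ j)⁻¹ ≤ 8 * (((2:ℝ) ^ (n + 2))⁻¹) ^ (1 / A) := by
        rw [← Real.rpow_natCast (2:ℝ) (n + 2), ← Real.rpow_neg (by norm_num),
          ← Real.rpow_mul (by norm_num), ← Real.rpow_natCast, ← Real.rpow_neg (by norm_num)]
        have h7 : (8:ℝ) = (2:ℝ) ^ (3:ℝ) := by norm_num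
        rw [h7, ← Real.rpow_add (by norm_num)]
        push_cast
        apply Real.rpow_le_rpow_of_exponent_le (by norm_num)
        have h8 : ((n : ℝ) + 2) * (1 / A) ≤ j + 3 := by
          rw [mul_one_div, div_le_iff₀ hApos]
          nlinarith
        linarith
      calc (((2:ℕ):ℝ) ^ j)⁻¹ ≤ 8 * (((2:ℝ) ^ (n + 2))⁻¹) ^ (1 / A) := h6
        _ ≤ 8 * |Real.ofDigits (dig τ ρ y) - Real.ofDigits (dig τ ρ y')| ^ (1 / A) := by gcongr
        _ = _ := by norm_num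
  · intro z hz
    obtain ⟨y, _, hy⟩ := Real.ofDigits_SurjOn (b := 2) (by norm_num) hz
    exact ⟨y, hy⟩

end Q272.MF
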