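import Pool.Agent.Q272.MF.Weyl

/-! Lower bound for quadratic Weyl sums close to a dyadic rational. -/

namespace Q272.MF

open Complex Finset

section

variable {Q : ℕ} [NeZero Q]

theorem sum_range_zmod (f : ZMod Q → ℂ) :
    ∑ j ∈ range Q, f ((j : ℕ) : ZMod Q) = ∑ z : ZMod Q, f z := by
  refine Finset.sum_bij' (fun j _ => ((j : ℕ) : ZMod Q)) (fun z _ => z.val) ?_ ?_ ?_ ?_ ?_
  · intros; exact mem_univ _
  · intro z _; exact mem_range.2 (ZMod.val_lt z)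
  · intro j hj
    exact ZMod.val_cast_of_lt (mem_range.1 hj)
  · intro z _
    exact ZMod.natCast_zmod_val z
  · intros; rfl

theorem sq_zero_of_two_mul (h4 : 4 ∣ Q) (h : ZMod Q) (h2 : 2 * h = 0) : h ^ 2 = 0 := by
  have h1 : ((2 * h.val : ℕ) : ZMod Q) = 0 := by
    push_cast
    rw [ZMod.natCast_zmod_val]; exact h2
  rw [ZMod.natCast_eq_zero_iff] at h1
  obtain ⟨m, hm⟩ := h4
  obtain ⟨k, hk⟩ := h1
  have h3 : h.val = 2 * m * k := by
    have : 2 * h.val = 2 * (2 * m * k) := by rw [hk, hm]; ring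
    omega
  have h5 : ((h.val ^ 2 : ℕ) : ZMod Q) = 0 := by
    rw [ZMod.natCast_eq_zero_iff, h3]
    exact ⟨m * k ^ 2, by rw [hm]; ring⟩
  push_cast at h5
  rwa [ZMod.natCast_zmod_val] at h5

theorem normSq_gauss (u : ZMod Q) (hu : IsUnit u) (h4 : 4 ∣ Q) :
    (Q : ℝ) ≤ ‖∑ z : ZMod Q, ZMod.stdAddChar (u * z ^ 2)‖ ^ 2 := by
  set ψ : AddChar (ZMod Q) ℂ := ZMod.stdAddChar with hψ
  have hprim : ψ.IsPrimitive := ZMod.isPrimitive_stdAddChar Q
  have h1 : (((‖∑ z : ZMod Q, ψ (u * z ^ 2)‖ ^ 2 : ℝ)) : ℂ) =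
      ∑ h : ZMod Q, if 2 * h = 0 then (Q : ℂ) else 0 := by
    rw [← Complex.normSq_eq_norm_sq, ← Complex.mul_conj, map_sum, Finset.sum_mul_sum]
    have h2 : ∀ a ∈ (univ : Finset (ZMod Q)), ∀ b ∈ (univ : Finset (ZMod Q)),
        ψ (u * a ^ 2) * (starRingEnd ℂ) (ψ (u * b ^ 2)) = ψ (u * (a ^ 2 - b ^ 2)) := by
      intro a _ b _
      rw [← AddChar.map_neg_eq_conj, ← AddChar.map_add_eq_mul]
      congr 1; ring
    rw [Finset.sum_congr rfl fun a ha => Finset.sum_congr rfl fun b hb => h2 a ha b hb]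
    rw [Finset.sum_comm]
    have h3 : ∀ b ∈ (univ : Finset (ZMod Q)), ∑ a, ψ (u * (a ^ 2 - b ^ 2)) =
        ∑ h, ψ (u * h ^ 2) * ψ (b * (2 * u * h)) := by
      intro b _
      rw [← Equiv.sum_comp (Equiv.addRight b)]
      refine Finset.sum_congr rfl fun h _ => ?_
      rw [← AddChar.map_add_eq_mul]
      congr 1
      simp only [Equiv.coe_addRight]
      ring
    rw [Finset.sum_congr rfl h3, Finset.sum_comm]
    refine Finset.sum_congr rfl fun h _ => ?_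
    rw [← Finset.mul_sum, AddChar.sum_mulShift _ hprim]
    have h5 : 2 * u * h = 0 ↔ 2 * h = 0 := by
      rw [show 2 * u * h = u * (2 * h) by ring]
      exact hu.mul_right_eq_zero
    by_cases h6 : 2 * h = 0
    · rw [if_pos h6, if_pos (h5.2 h6), sq_zero_of_two_mul h4 h h6, mul_zero,
        AddChar.map_zero_eq_one, one_mul, ZMod.card]
    · rw [if_neg h6, if_neg (fun h7 => h6 (h5.1 h7)), Nat.cast_zero, mul_zero]
  have h2 : ((‖∑ z : ZMod Q, ψ (u * z ^ 2)‖ ^ 2 : ℝ)) =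
      ∑ h : ZMod Q, if 2 * h = 0 then (Q : ℝ) else 0 := by
    have : (((∑ h : ZMod Q, if 2 * h = 0 then (Q : ℝ) else 0) : ℝ) : ℂ) =
      ∑ h : ZMod Q, if 2 * h = 0 then (Q : ℂ) else 0 := by
      push_cast
      refine Finset.sum_congr rfl fun h _ => ?_
      split_ifs <;> simp
    exact_mod_cast h1.trans this.symm
  rw [h2]
  have h3 := Finset.single_le_sum (f := fun h : ZMod Q => if 2 * h = 0 then (Q : ℝ) else 0)
    (fun h _ => by
      show (0:ℝ) ≤ if 2 * h = 0 then (Q : ℝ) else 0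
      split_ifs
      · exact Nat.cast_nonneg _
      · exact le_refl _) (mem_univ (0 : ZMod Q))
  simpa using h3

end

/-- The block Gauss sum. -/
theorem gauss_lower {p Q : ℕ} (hQ : 0 < Q) (h4 : 4 ∣ Q) (hp : Nat.Coprime p Q) :
    (Q : ℝ) ≤ ‖∑ j ∈ range Q, e ((p : ℝ) * ((j : ℝ) + 1) ^ 2 / Q)‖ ^ 2 := by
  have : NeZero Q := ⟨hQ.ne'⟩
  have hu : IsUnit (p : ZMod Q) := (ZMod.isUnit_iff_coprime p Q).2 hp
  have h := normSq_gauss (p : ZMod Q) hu h4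
  have h1 : ∑ j ∈ range Q, e ((p : ℝ) * ((j : ℝ) + 1) ^ 2 / Q) =
      ∑ z : ZMod Q, ZMod.stdAddChar ((p : ZMod Q) * z ^ 2) := by
    rw [← Equiv.sum_comp (Equiv.addRight (1 : ZMod Q)), ← sum_range_zmod]
    refine Finset.sum_congr rfl fun j _ => ?_
    have h2 : ((p : ZMod Q) * ((Equiv.addRight (1 : ZMod Q)) ((j : ℕ) : ZMod Q)) ^ 2) =
        (((p * (j + 1) ^ 2 : ℕ) : ℤ) : ZMod Q) := by
      simp only [Equiv.coe_addRight]
      push_cast
      ring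
    rw [h2, ZMod.stdAddChar_coe]
    unfold e
    congr 1
    push_cast
    ring
  rw [h1]
  exact h

theorem sum_blocks_c (f : ℕ → ℂ) (L M : ℕ) :
    ∑ h ∈ range (L * M), f h = ∑ q ∈ range L, ∑ r ∈ range M, f (q * M + r) := by
  induction L with
  | zero => simp
  | succ L ih => rw [Nat.succ_mul, Finset.sum_range_add, ih, Finset.sum_range_succ]

/-- Lower bound. -/
theorem weyl_lower {p Q R : ℕ} (hQ : 0 < Q) (h4 : 4 ∣ Q) (hp : Nat.Coprime p Q) {β x : ℝ}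
    (hβ : 0 ≤ β) (hx : x = p / Q + β) (h1 : 2 * Real.pi * β * ((Q : ℝ) * R) ^ 2 ≤ 1 / 4)
    (h2 : 16 * (Q : ℝ) ≤ (R : ℝ) ^ 2) :
    (R : ℝ) * Real.sqrt Q / 2 ≤ ‖T x (R * Q)‖ := by
  have hQ' : (0:ℝ) < Q := by exact_mod_cast hQ
  have hQ1 : (1:ℝ) ≤ Q := by exact_mod_cast hQ
  set G := ∑ j ∈ range Q, e ((p : ℝ) * ((j : ℝ) + 1) ^ 2 / Q) with hG
  have hGn : Real.sqrt Q ≤ ‖G‖ :=
    Real.sqrt_le_iff.2 ⟨norm_nonneg _, gauss_lower hQ h4 hp⟩
  have hT : T x (R * Q) = ∑ r ∈ range R, ∑ j ∈ range Q,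
      e ((p : ℝ) * ((j : ℝ) + 1) ^ 2 / Q) * e (β * ((r : ℝ) * Q + j + 1) ^ 2) := by
    unfold T
    rw [sum_blocks_c]
    refine Finset.sum_congr rfl fun r _ => Finset.sum_congr rfl fun j _ => ?_
    rw [← e_add]
    have h3 : x * (((r * Q + j : ℕ) : ℝ) + 1) ^ 2 = ((p : ℝ) * ((j : ℝ) + 1) ^ 2 / Q +
        β * ((r : ℝ) * Q + j + 1) ^ 2) + (((p * (r ^ 2 * Q + 2 * r * (j + 1)) : ℕ) : ℤ) : ℝ) := by
      rw [hx]
      push_cast
      field_simp
      ring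
    rw [h3, e_add_int]
  have hmain : ∑ r ∈ range R, ∑ j ∈ range Q,
      e ((p : ℝ) * ((j : ℝ) + 1) ^ 2 / Q) * e (β * ((r : ℝ) * Q) ^ 2) =
      G * ∑ r ∈ range R, e (β * ((r : ℝ) * Q) ^ 2) := by
    rw [Finset.mul_sum]
    refine Finset.sum_congr rfl fun r _ => ?_
    rw [hG, Finset.sum_mul]
  have hR1 : ‖(R : ℂ) - ∑ r ∈ range R, e (β * ((r : ℝ) * Q) ^ 2)‖ ≤ R / 4 := by
    have h5 : (R : ℂ) - ∑ r ∈ range R, e (β * ((r : ℝ) * Q) ^ 2) =
        ∑ r ∈ range R, (1 - e (β * ((r : ℝ) * Q) ^ 2)) := by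
      rw [Finset.sum_sub_distrib]
      simp
    rw [h5]
    refine (norm_sum_le _ _).trans ?_
    have h6 : ∀ r ∈ range R, ‖1 - e (β * ((r : ℝ) * Q) ^ 2)‖ ≤ 1 / 4 := by
      intro r hr
      rw [mem_range] at hr
      have hrR : (r : ℝ) ≤ R := by exact_mod_cast hr.le
      rw [norm_sub_rev]
      refine (norm_e_sub_one_le _).trans ?_
      rw [abs_of_nonneg (by positivity)]
      refine le_trans ?_ h1
      have h7 : ((r : ℝ) * Q) ^ 2 ≤ ((Q : ℝ) * R) ^ 2 := by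
        apply pow_le_pow_left₀ (by positivity)
        nlinarith
      have : 2 * Real.pi * (β * ((r : ℝ) * Q) ^ 2) = 2 * Real.pi * β * ((r : ℝ) * Q) ^ 2 := by ring
      rw [this]
      exact mul_le_mul_of_nonneg_left h7 (by positivity)
    refine (Finset.sum_le_sum h6).trans (le_of_eq ?_)
    rw [Finset.sum_const, card_range, nsmul_eq_mul]
    ring
  have hR2 : (3 / 4 : ℝ) * R ≤ ‖∑ r ∈ range R, e (β * ((r : ℝ) * Q) ^ 2)‖ := by
    have h8 : ‖(R : ℂ)‖ ≤ ‖(R : ℂ) - ∑ r ∈ range R, e (β * ((r : ℝ) * Q) ^ 2)‖ +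
        ‖∑ r ∈ range R, e (β * ((r : ℝ) * Q) ^ 2)‖ := by
      have := norm_add_le ((R : ℂ) - ∑ r ∈ range R, e (β * ((r : ℝ) * Q) ^ 2))
        (∑ r ∈ range R, e (β * ((r : ℝ) * Q) ^ 2))
      rwa [sub_add_cancel] at this
    rw [Complex.norm_natCast] at h8
    linarith
  have herr : ‖T x (R * Q) - G * ∑ r ∈ range R, e (β * ((r : ℝ) * Q) ^ 2)‖ ≤ Q / 2 := by
    rw [hT, ← hmain, ← Finset.sum_sub_distrib]
    refine (norm_sum_le _ _).trans ?_
    have h9 : ∀ r ∈ range R, ‖∑ j ∈ range Q,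
        e ((p : ℝ) * ((j : ℝ) + 1) ^ 2 / Q) * e (β * ((r : ℝ) * Q + j + 1) ^ 2) -
        ∑ j ∈ range Q, e ((p : ℝ) * ((j : ℝ) + 1) ^ 2 / Q) * e (β * ((r : ℝ) * Q) ^ 2)‖ ≤
        Q * (2 * Real.pi * β * (Q ^ 2 * (2 * R))) := by
      intro r hr
      rw [mem_range] at hr
      have hrR : (r : ℝ) + 1 ≤ R := by exact_mod_cast hr
      rw [← Finset.sum_sub_distrib]
      refine (norm_sum_le _ _).trans ?_
      have h10 : ∀ j ∈ range Q, ‖e ((p : ℝ) * ((j : ℝ) + 1) ^ 2 / Q) *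
          e (β * ((r : ℝ) * Q + j + 1) ^ 2) -
          e ((p : ℝ) * ((j : ℝ) + 1) ^ 2 / Q) * e (β * ((r : ℝ) * Q) ^ 2)‖ ≤
          2 * Real.pi * β * (Q ^ 2 * (2 * R)) := by
        intro j hj
        rw [mem_range] at hj
        have hjQ : (j : ℝ) + 1 ≤ Q := by exact_mod_cast hj
        have hj0 : (0:ℝ) ≤ j := Nat.cast_nonneg _
        have hr0 : (0:ℝ) ≤ r := Nat.cast_nonneg _
        rw [← mul_sub, norm_mul, norm_e, one_mul]
        refine (norm_e_sub_le _ _).trans ?_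
        have h11 : β * ((r : ℝ) * Q + j + 1) ^ 2 - β * ((r : ℝ) * Q) ^ 2 =
            β * (((j : ℝ) + 1) * (2 * (r * Q) + (j + 1))) := by ring
        rw [h11, abs_of_nonneg (by positivity)]
        rw [show 2 * Real.pi * (β * (((j : ℝ) + 1) * (2 * (r * Q) + (j + 1)))) =
          2 * Real.pi * β * (((j : ℝ) + 1) * (2 * (r * Q) + (j + 1))) by ring]
        refine mul_le_mul_of_nonneg_left ?_ (by positivity)
        have h12 : 2 * ((r : ℝ) * Q) + (j + 1) ≤ Q * (2 * R) := by nlinarith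
        calc ((j : ℝ) + 1) * (2 * (r * Q) + (j + 1)) ≤ Q * (Q * (2 * R)) := by
              apply mul_le_mul hjQ h12 (by positivity) hQ'.le
          _ = Q ^ 2 * (2 * R) := by ring
      refine (Finset.sum_le_sum h10).trans (le_of_eq ?_)
      rw [Finset.sum_const, card_range, nsmul_eq_mul]
    refine (Finset.sum_le_sum h9).trans ?_
    rw [Finset.sum_const, card_range, nsmul_eq_mul]
    have h13 : (R : ℝ) * (Q * (2 * Real.pi * β * (Q ^ 2 * (2 * R)))) =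
      2 * Q * (2 * Real.pi * β * ((Q : ℝ) * R) ^ 2) := by ring
    rw [h13]
    nlinarith
  have hfin : ‖G * ∑ r ∈ range R, e (β * ((r : ℝ) * Q) ^ 2)‖ ≤ ‖T x (R * Q)‖ + Q / 2 := by
    have := norm_sub_le (T x (R * Q)) (T x (R * Q) - G * ∑ r ∈ range R, e (β * ((r : ℝ) * Q) ^ 2))
    rw [sub_sub_cancel] at this
    linarith
  rw [norm_mul] at hfin
  have hs0 : 0 ≤ Real.sqrt Q := Real.sqrt_nonneg _
  have hlow : Real.sqrt Q * ((3 / 4 : ℝ) * R) ≤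
      ‖G‖ * ‖∑ r ∈ range R, e (β * ((r : ℝ) * Q) ^ 2)‖ :=
    mul_le_mul hGn hR2 (by positivity) (norm_nonneg _)
  have hsq : Real.sqrt Q * Real.sqrt Q = Q := Real.mul_self_sqrt hQ'.le
  have h4s : 4 * Real.sqrt Q ≤ R := by
    apply le_of_sq_le_sq _ (Nat.cast_nonneg _)
    nlinarith
  nlinarith

end Q272.MF
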