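import Pool.Agent.Q272.MF.Gauss

/-! Growth exponent of quadratic Weyl sums at specially constructed points. -/

namespace Q272.MF

open Complex Finset Filter Asymptotics

/-- `Q_k = 2 ^ (ρ ^ k)`. -/
def Qk (ρ k : ℕ) : ℕ := 2 ^ (ρ ^ k)

/-- Points with prescribed dyadic approximations. -/
def Good (τ : ℝ) (ρ : ℕ) (x : ℝ) : Prop :=
  ∀ k : ℕ, 1 ≤ k → ∃ p : ℕ, ∃ β : ℝ, Odd p ∧ x = p / (Qk ρ k : ℝ) + β ∧
    (Qk ρ k : ℝ) ^ (-τ) / 2 ≤ β ∧ β ≤ 2 * (Qk ρ k : ℝ) ^ (-τ)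

theorem upper_step {τ α : ℝ} (hτ : 5 ≤ τ) (hα : α = 1 - 1 / τ) {b p N : ℕ} (hb : 1 ≤ b)
    (hp : Odd p) {β x : ℝ} (hx : x = p / ((2 : ℝ) ^ b) + β)
    (hβ1 : ((2 : ℝ) ^ b) ^ (-τ) / 2 ≤ β) (hβ2 : β ≤ 2 * ((2 : ℝ) ^ b) ^ (-τ))
    (hN1 : (2 : ℝ) ^ b ≤ (N : ℝ) ^ (2 * α)) (hN2 : (N : ℝ) ≤ ((2 : ℝ) ^ b) ^ (τ - 1) / 4)
    (hN0 : 1 ≤ N) :
    ‖T x N‖ ^ 2 ≤ 25 * (N : ℝ) ^ (2 * α) * (1 + Real.log N) := by
  obtain ⟨b', rfl⟩ : ∃ b', b = b' + 1 := ⟨b - 1, by omega⟩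
  set Q : ℝ := (2 : ℝ) ^ (b' + 1) with hQ
  have hQpos : 0 < Q := by positivity
  have hQ1 : 1 ≤ Q := one_le_pow₀ (by norm_num)
  have hτpos : 0 < τ := by linarith
  have hα1 : 4 / 5 ≤ α := by
    rw [hα]
    have : 1 / τ ≤ 1 / 5 := one_div_le_one_div_of_le (by norm_num) hτ
    linarith
  have hα2 : α < 1 := by
    rw [hα]
    have : 0 < 1 / τ := by positivity
    linarith
  have hNR : (1:ℝ) ≤ N := by exact_mod_cast hN0
  have hNpos : (0:ℝ) < N := by linarith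
  have hlogN : 0 ≤ Real.log N := Real.log_nonneg hNR
  set M : ℕ := 2 ^ b' with hM
  have hMR : (M : ℝ) = Q / 2 := by rw [hM, hQ]; push_cast; rw [pow_succ]; ring
  have hM0 : 0 < M := by positivity
  have hM1 : (1:ℝ) ≤ M := by exact_mod_cast hM0
  have hcop : Nat.Coprime p M := by
    rw [hM]
    exact Nat.Coprime.pow_right _ (Nat.Coprime.symm (Nat.coprime_two_left.2 hp))
  have hβpos : 0 < β := lt_of_lt_of_le (by positivity) hβ1
  have hβN : 4 * β * N * M ≤ 1 := by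
    have h1 : 4 * β * N * M ≤ 4 * (2 * Q ^ (-τ)) * (Q ^ (τ - 1) / 4) * (Q / 2) := by
      rw [hMR]; gcongr
    refine h1.trans (le_of_eq ?_)
    have h2 : Q ^ (-τ) * Q ^ (τ - 1) * Q = 1 := by
      rw [← Real.rpow_add hQpos, ← Real.rpow_add_one hQpos.ne']
      rw [show -τ + (τ - 1) + 1 = 0 by ring, Real.rpow_zero]
    calc 4 * (2 * Q ^ (-τ)) * (Q ^ (τ - 1) / 4) * (Q / 2) = Q ^ (-τ) * Q ^ (τ - 1) * Q := by ring
      _ = 1 := h2
  have hx' : x = p / (2 * (M : ℝ)) + β := by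
    rw [hx, hMR]; congr 2; ring
  have h := weyl_upper hM0 hcop hβpos hβN hx'
  -- auxiliary bounds
  have hA : (N : ℝ) ≤ (N : ℝ) ^ (2 * α) := by
    calc (N : ℝ) = (N : ℝ) ^ (1 : ℝ) := (Real.rpow_one _).symm
      _ ≤ (N : ℝ) ^ (2 * α) := Real.rpow_le_rpow_of_exponent_le hNR (by linarith)
  have hB : (M : ℝ) ≤ (N : ℝ) ^ (2 * α) := by rw [hMR]; linarith
  have hC : Real.log M ≤ 2 * Real.log N := by
    have h1 : Real.log M ≤ Real.log ((N : ℝ) ^ (2 * α)) := Real.log_le_log (by linarith) hB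
    rw [Real.log_rpow hNpos] at h1
    nlinarith
  have hlogM : 0 ≤ Real.log M := Real.log_nonneg hM1
  have hdiv : ((N / M : ℕ) : ℝ) ≤ N / M := Nat.cast_div_le
  have hD : ((N / M : ℕ) + 1 : ℝ) * (2 * M * (1 + Real.log M)) ≤
      4 * (N : ℝ) ^ (2 * α) * (1 + 2 * Real.log N) := by
    calc ((N / M : ℕ) + 1 : ℝ) * (2 * M * (1 + Real.log M))
        ≤ ((N : ℝ) / M + 1) * (2 * M * (1 + 2 * Real.log N)) := by gcongr
      _ = 2 * (N + M) * (1 + 2 * Real.log N) := by field_simp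
      _ ≤ 2 * ((N : ℝ) ^ (2 * α) + (N : ℝ) ^ (2 * α)) * (1 + 2 * Real.log N) := by gcongr
      _ = 4 * (N : ℝ) ^ (2 * α) * (1 + 2 * Real.log N) := by ring
  have hE : min ((N : ℝ) * (N / M : ℕ)) (1 / (4 * β * M) * (1 + Real.log N)) ≤
      2 * (N : ℝ) ^ (2 * α) * (1 + Real.log N) := by
    rcases le_total (N : ℝ) (Q ^ (τ / 2)) with hle | hle
    · refine (min_le_left _ _).trans ?_
      have h3 : (N : ℝ) ^ (2 / τ) ≤ Q := by
        have : (N : ℝ) ^ (2 / τ) ≤ (Q ^ (τ / 2)) ^ (2 / τ) :=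
          Real.rpow_le_rpow hNpos.le hle (by positivity)
        rw [← Real.rpow_mul hQpos.le] at this
        rwa [show τ / 2 * (2 / τ) = 1 by field_simp, Real.rpow_one] at this
      have h4 : (N : ℝ) ^ 2 = (N : ℝ) ^ (2 * α) * (N : ℝ) ^ (2 / τ) := by
        rw [← Real.rpow_add hNpos, hα]
        rw [show 2 * (1 - 1 / τ) + 2 / τ = ((2 : ℕ) : ℝ) by push_cast; field_simp; ring]
        rw [Real.rpow_natCast]
      have h5 : (N : ℝ) * (N / M : ℕ) ≤ 2 * (N : ℝ) ^ (2 * α) := by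
        calc (N : ℝ) * (N / M : ℕ) ≤ N * (N / M) := by gcongr
          _ = 2 * (N ^ 2 / Q) := by rw [hMR]; field_simp
          _ = 2 * ((N : ℝ) ^ (2 * α) * (N : ℝ) ^ (2 / τ) / Q) := by rw [h4]
          _ ≤ 2 * ((N : ℝ) ^ (2 * α) * Q / Q) := by gcongr
          _ = 2 * (N : ℝ) ^ (2 * α) := by field_simp
      have h6 : 0 ≤ 2 * (N : ℝ) ^ (2 * α) * Real.log N := by positivity
      nlinarith
    · refine (min_le_right _ _).trans ?_
      have h7 : 1 / (4 * β * M) ≤ Q ^ (τ - 1) := by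
        have h8 : 0 < Q ^ (-τ) := by positivity
        calc 1 / (4 * β * M) ≤ 1 / (4 * (Q ^ (-τ) / 2) * M) := by gcongr
          _ = 1 / (Q ^ (-τ) * Q) := by rw [hMR]; congr 1; ring
          _ = Q ^ (τ - 1) := by
            rw [← Real.rpow_add_one hQpos.ne', one_div, ← Real.rpow_neg hQpos.le]
            congr 1; ring
      have h9 : Q ^ (τ - 1) ≤ (N : ℝ) ^ (2 * α) := by
        have : (Q ^ (τ / 2)) ^ (2 * α) ≤ (N : ℝ) ^ (2 * α) :=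
          Real.rpow_le_rpow (by positivity) hle (by linarith)
        rw [← Real.rpow_mul hQpos.le] at this
        rwa [show τ / 2 * (2 * α) = τ - 1 by rw [hα]; field_simp] at this
      have h10 : 1 / (4 * β * M) * (1 + Real.log N) ≤ (N : ℝ) ^ (2 * α) * (1 + Real.log N) := by
        gcongr; exact h7.trans h9
      have h11 : 0 ≤ (N : ℝ) ^ (2 * α) * (1 + Real.log N) := by positivity
      linarith
  have hP : 0 ≤ (N : ℝ) ^ (2 * α) * Real.log N := by positivity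
  nlinarith

theorem upper_growth {τ α : ℝ} {ρ : ℕ} (hτ : 5 ≤ τ) (hα : α = 1 - 1 / τ) (h1 : τ < ρ)
    (h2 : (ρ : ℝ) ≤ τ + 1) {x : ℝ} (hx : Good τ ρ x) :
    ∀ᶠ N : ℕ in atTop, ‖T x N‖ ^ 2 ≤ 25 * (N : ℝ) ^ (2 * α) * (1 + Real.log N) := by
  have hα1 : 4 / 5 ≤ α := by
    rw [hα]
    have : 1 / τ ≤ 1 / 5 := one_div_le_one_div_of_le (by norm_num) hτ
    linarith
  have hρ1 : (1:ℝ) < ρ := by linarith
  have hlog2 : 0 < Real.log 2 := Real.log_pos (by norm_num)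
  -- a threshold
  have htend : Tendsto (fun N : ℕ => 2 * α * (Real.log N / Real.log 2)) atTop atTop := by
    have h3 : Tendsto (fun N : ℕ => Real.log N) atTop atTop :=
      Real.tendsto_log_atTop.comp tendsto_natCast_atTop_atTop
    exact (h3.atTop_div_const hlog2).const_mul_atTop (by linarith)
  filter_upwards [htend.eventually_ge_atTop (ρ : ℝ),
    htend.eventually_ge_atTop ((ρ : ℝ) * (2 * (τ - 1))), eventually_ge_atTop 1] with N hN1 hN2 hN0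
  have hNR : (1:ℝ) ≤ N := by exact_mod_cast hN0
  have hNpos : (0:ℝ) < N := by linarith
  set L := 2 * α * (Real.log N / Real.log 2) with hL
  obtain ⟨k, hk1, hk2⟩ := exists_nat_pow_near (by linarith : (1:ℝ) ≤ L) hρ1
  have hk0 : 1 ≤ k := by
    by_contra hk
    have : k = 0 := by omega
    rw [this, zero_add, pow_one] at hk2
    linarith
  have hpowL : (2:ℝ) ^ L = (N : ℝ) ^ (2 * α) := by
    rw [Real.rpow_def_of_pos (by norm_num : (0:ℝ) < 2), Real.rpow_def_of_pos hNpos, hL]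
    congr 1
    field_simp
  obtain ⟨p, β, hp, hxp, hβ1, hβ2⟩ := hx k hk0
  have hQc : ((Qk ρ k : ℕ) : ℝ) = (2:ℝ) ^ (ρ ^ k) := by unfold Qk; push_cast; rfl
  rw [hQc] at hxp hβ1 hβ2
  refine upper_step hτ hα (Nat.one_le_pow _ _ (by
    have : (0:ℝ) < ρ := by linarith
    exact_mod_cast this)) hp hxp hβ1 hβ2 ?_ ?_ hN0
  · rw [← hpowL, ← Real.rpow_natCast]
    apply Real.rpow_le_rpow_of_exponent_le (by norm_num)
    push_cast
    exact hk1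
  · -- `N ≤ Q^(τ-1)/4`
    have h4 : (ρ : ℝ) ^ k * (1 / (τ - 1)) ≥ 2 := by
      have h5 : (ρ : ℝ) * (2 * (τ - 1)) < (ρ : ℝ) ^ (k + 1) := lt_of_le_of_lt hN2 hk2
      rw [pow_succ, mul_comm ((ρ : ℝ) ^ k)] at h5
      have h6 : 2 * (τ - 1) < (ρ : ℝ) ^ k := by
        exact lt_of_mul_lt_mul_left h5 (by linarith)
      rw [ge_iff_le, mul_one_div, le_div_iff₀ (by linarith)]
      linarith
    have h7 : (N : ℝ) = (2:ℝ) ^ (L / (2 * α)) := by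
      rw [Real.rpow_def_of_pos (by norm_num : (0:ℝ) < 2), hL]
      rw [show Real.log 2 * (2 * α * (Real.log N / Real.log 2) / (2 * α)) = Real.log N by
        field_simp]
      rw [Real.exp_log hNpos]
    have h8 : ((2:ℝ) ^ (ρ ^ k)) ^ (τ - 1) / 4 = (2:ℝ) ^ ((ρ : ℝ) ^ k * (τ - 1) - 2) := by
      have h81 : (2:ℝ) ^ ((ρ : ℝ) ^ k * (τ - 1) - 2) =
          (2:ℝ) ^ ((ρ : ℝ) ^ k * (τ - 1)) / (2:ℝ) ^ (2:ℝ) :=
        Real.rpow_sub (by norm_num) _ _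
      rw [h81, ← Real.rpow_natCast (2:ℝ) (ρ ^ k), ← Real.rpow_mul (by norm_num)]
      push_cast
      norm_num
    rw [h8, h7]
    apply Real.rpow_le_rpow_of_exponent_le (by norm_num)
    rw [div_le_iff₀ (by linarith)]
    have h9 : L ≤ (ρ : ℝ) ^ k * ρ := by rw [← pow_succ]; exact hk2.le
    have h10 : (ρ : ℝ) ^ k * ρ ≤ (ρ : ℝ) ^ k * (τ + 1) := by gcongr
    have h11 : (ρ : ℝ) ^ k * (τ + 1) ≤ ((ρ : ℝ) ^ k * (τ - 1) - 2) * (2 * α) := by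
      have h12 : (ρ : ℝ) ^ k * (τ + 1) ≤ ((ρ : ℝ) ^ k * (τ - 1) - (ρ : ℝ) ^ k * (1 / (τ - 1))) *
          (2 * α) := by
        have h13 : ((ρ : ℝ) ^ k * (τ - 1) - (ρ : ℝ) ^ k * (1 / (τ - 1))) * (2 * α) =
            (ρ : ℝ) ^ k * ((τ - 1 - 1 / (τ - 1)) * (2 * α)) := by ring
        rw [h13]
        have hρk : 0 ≤ (ρ : ℝ) ^ k := by positivity
        refine mul_le_mul_of_nonneg_left ?_ hρk
        have h14 : (τ - 1 - 1 / (τ - 1)) * (2 * α) = 2 * (τ - 2) := by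
          have hne : τ - 1 ≠ 0 := by linarith
          have hne' : τ ≠ 0 := by linarith
          rw [hα]
          field_simp
          ring
        rw [h14]
        linarith
      refine h12.trans ?_
      have : 0 ≤ 2 * α := by linarith
      refine mul_le_mul_of_nonneg_right ?_ this
      linarith
    linarith

theorem tendsto_Qk {ρ : ℕ} (hρ : 2 ≤ ρ) : Tendsto (fun k => ((Qk ρ k : ℕ) : ℝ)) atTop atTop := by
  apply tendsto_natCast_atTop_atTop.comp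
  apply tendsto_atTop_mono (f := fun k => k) _ tendsto_id
  intro k
  unfold Qk
  calc k ≤ 2 ^ k := Nat.lt_two_pow_self.le
    _ ≤ ρ ^ k := Nat.pow_le_pow_left hρ k
    _ ≤ 2 ^ (ρ ^ k) := Nat.lt_two_pow_self.le

theorem lower_growth {τ α : ℝ} {ρ : ℕ} (hτ : 5 ≤ τ) (hα : α = 1 - 1 / τ) (h1 : τ < ρ)
    {x : ℝ} (hx : Good τ ρ x) {s : ℝ} (hs0 : 0 ≤ s) (hs : s < α) :
    ¬ ((fun N : ℕ => ‖T x N‖) =O[atTop] fun N : ℕ => (N : ℝ) ^ s) := by
  intro hO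
  obtain ⟨C, hC⟩ := hO.bound
  rw [eventually_atTop] at hC
  obtain ⟨N0, hN0⟩ := hC
  have hτpos : 0 < τ := by linarith
  have hρ2 : 2 ≤ ρ := by
    have : (2:ℝ) < ρ := by linarith
    exact_mod_cast this.le
  set δ := (τ - 1 - s * τ) / 2 with hδ
  have hδpos : 0 < δ := by
    have h2 : s * τ < α * τ := mul_lt_mul_of_pos_right hs hτpos
    have h3 : α * τ = τ - 1 := by rw [hα]; field_simp
    rw [hδ]
    linarith
  have ht := tendsto_Qk hρ2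
  have ht2 : Tendsto (fun k => ((Qk ρ k : ℕ) : ℝ) ^ δ) atTop atTop :=
    (tendsto_rpow_atTop hδpos).comp ht
  obtain ⟨k, hk1, hk2, hk3, hk4⟩ := ((ht.eventually_ge_atTop 64).and
    ((ht.eventually_ge_atTop (N0 : ℝ)).and ((ht2.eventually_gt_atTop (32 * |C|)).and
      (eventually_ge_atTop 1)))).exists
  obtain ⟨p, β, hp, hxp, hβ1, hβ2⟩ := hx k hk4
  set Q : ℕ := Qk ρ k with hQ
  have hQpos : (0:ℝ) < Q := by linarith
  have hQ1 : (1:ℝ) ≤ Q := by linarith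
  have hQ0 : 0 < Q := by exact_mod_cast hQpos
  have hpow2 : 2 ≤ ρ ^ k := le_trans hρ2 (Nat.le_self_pow (by omega) ρ)
  have h4 : 4 ∣ Q := by
    rw [hQ]; unfold Qk
    exact pow_dvd_pow 2 hpow2
  have hcop : Nat.Coprime p Q := by
    rw [hQ]; unfold Qk
    exact Nat.Coprime.pow_right _ (Nat.Coprime.symm (Nat.coprime_two_left.2 hp))
  set R : ℕ := ⌊(Q : ℝ) ^ (τ / 2 - 1) / 8⌋₊ with hR
  have hQp : 0 < (Q : ℝ) ^ (τ / 2 - 1) := by positivity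
  have hRle : (R : ℝ) ≤ (Q : ℝ) ^ (τ / 2 - 1) / 8 := Nat.floor_le (by positivity)
  have hbig : 64 ≤ (Q : ℝ) ^ (τ / 2 - 1) := by
    calc (64:ℝ) ≤ Q := hk1
      _ = (Q : ℝ) ^ (1:ℝ) := (Real.rpow_one _).symm
      _ ≤ (Q : ℝ) ^ (τ / 2 - 1) := Real.rpow_le_rpow_of_exponent_le hQ1 (by linarith)
  have hRge : (Q : ℝ) ^ (τ / 2 - 1) / 16 ≤ R := by
    have := Nat.lt_floor_add_one ((Q : ℝ) ^ (τ / 2 - 1) / 8)
    rw [← hR] at this
    linarith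
  have hβ0 : 0 ≤ β := le_trans (by positivity) hβ1
  have hsq : ((Q : ℝ) ^ (τ / 2 - 1)) ^ 2 * Q ^ 2 = (Q : ℝ) ^ τ := by
    rw [← Real.rpow_natCast, ← Real.rpow_natCast, ← Real.rpow_mul hQpos.le,
      ← Real.rpow_add hQpos]
    congr 1
    push_cast; ring
  have hc1 : 2 * Real.pi * β * ((Q : ℝ) * R) ^ 2 ≤ 1 / 4 := by
    have h5 : 2 * Real.pi * β * ((Q : ℝ) * R) ^ 2 ≤
        2 * Real.pi * (2 * (Q : ℝ) ^ (-τ)) * ((Q : ℝ) * ((Q : ℝ) ^ (τ / 2 - 1) / 8)) ^ 2 := by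
      gcongr
    refine h5.trans ?_
    have h6 : 2 * Real.pi * (2 * (Q : ℝ) ^ (-τ)) * ((Q : ℝ) * ((Q : ℝ) ^ (τ / 2 - 1) / 8)) ^ 2 =
        Real.pi / 16 * ((Q : ℝ) ^ (-τ) * (((Q : ℝ) ^ (τ / 2 - 1)) ^ 2 * Q ^ 2)) := by ring
    rw [h6, hsq, ← Real.rpow_add hQpos, neg_add_cancel, Real.rpow_zero]
    have := Real.pi_lt_four
    linarith
  have hc2 : 16 * (Q : ℝ) ≤ (R : ℝ) ^ 2 := by
    have h7 : ((Q : ℝ) ^ (τ / 2 - 1) / 16) ^ 2 ≤ (R : ℝ) ^ 2 := by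
      gcongr
    refine le_trans ?_ h7
    have h8 : (Q : ℝ) ^ 2 * Q ≤ ((Q : ℝ) ^ (τ / 2 - 1)) ^ 2 := by
      rw [← Real.rpow_natCast ((Q : ℝ) ^ (τ / 2 - 1)), ← Real.rpow_mul hQpos.le]
      calc (Q : ℝ) ^ 2 * Q = (Q : ℝ) ^ (3:ℝ) := by
            rw [show (3:ℝ) = ((3:ℕ):ℝ) by norm_num, Real.rpow_natCast]; ring
        _ ≤ _ := Real.rpow_le_rpow_of_exponent_le hQ1 (by push_cast; linarith)
    have h9 : (64:ℝ) ^ 2 * Q ≤ (Q : ℝ) ^ 2 * Q := by gcongr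
    nlinarith
  have hlow := weyl_lower hQ0 h4 hcop hβ0 hxp hc1 hc2
  have hR1 : (1:ℝ) ≤ R := by linarith
  have hRQ : (N0 : ℝ) ≤ ((R * Q : ℕ) : ℝ) := by
    push_cast
    nlinarith
  have hup := hN0 (R * Q) (by exact_mod_cast hRQ)
  rw [Real.norm_of_nonneg (norm_nonneg _), Real.norm_of_nonneg (by positivity)] at hup
  have hRQ2 : ((R * Q : ℕ) : ℝ) ≤ (Q : ℝ) ^ (τ / 2) := by
    push_cast
    have h10 : (Q : ℝ) ^ (τ / 2) = (Q : ℝ) ^ (τ / 2 - 1) * Q := by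
      rw [← Real.rpow_add_one hQpos.ne']; congr 1; ring
    rw [h10]
    apply mul_le_mul_of_nonneg_right _ hQpos.le
    linarith
  have hup2 : ‖T x (R * Q)‖ ≤ |C| * (Q : ℝ) ^ (τ / 2 * s) := by
    refine hup.trans ?_
    have h11 : ((R * Q : ℕ) : ℝ) ^ s ≤ (Q : ℝ) ^ (τ / 2 * s) := by
      rw [Real.rpow_mul hQpos.le]
      exact Real.rpow_le_rpow (by positivity) hRQ2 hs0
    calc C * ((R * Q : ℕ) : ℝ) ^ s ≤ |C| * ((R * Q : ℕ) : ℝ) ^ s := by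
          apply mul_le_mul_of_nonneg_right (le_abs_self C) (by positivity)
      _ ≤ |C| * (Q : ℝ) ^ (τ / 2 * s) := by
          apply mul_le_mul_of_nonneg_left h11 (abs_nonneg _)
  have hlow2 : (Q : ℝ) ^ δ * (Q : ℝ) ^ (τ / 2 * s) ≤ 32 * ‖T x (R * Q)‖ := by
    have h12 : (Q : ℝ) ^ δ * (Q : ℝ) ^ (τ / 2 * s) = (Q : ℝ) ^ (τ / 2 - 1) * Real.sqrt Q := by
      rw [Real.sqrt_eq_rpow, ← Real.rpow_add hQpos, ← Real.rpow_add hQpos]
      congr 1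
      rw [hδ]; ring
    rw [h12]
    have h13 : (Q : ℝ) ^ (τ / 2 - 1) * Real.sqrt Q ≤ 16 * R * Real.sqrt Q := by
      gcongr; linarith
    linarith
  have hQs : 0 < (Q : ℝ) ^ (τ / 2 * s) := by positivity
  have h14 : (Q : ℝ) ^ δ * (Q : ℝ) ^ (τ / 2 * s) ≤ 32 * |C| * (Q : ℝ) ^ (τ / 2 * s) := by
    linarith
  have h15 := le_of_mul_le_mul_right h14 hQs
  linarith

/-- The growth exponent of `x` with the definition via `O`. -/
theorem isBigO_of_gt {τ α : ℝ} {ρ : ℕ} (hτ : 5 ≤ τ) (hα : α = 1 - 1 / τ) (h1 : τ < ρ)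
    (h2 : (ρ : ℝ) ≤ τ + 1) {x : ℝ} (hx : Good τ ρ x) {s : ℝ} (hs : α < s) :
    (fun N : ℕ => ‖T x N‖) =O[atTop] fun N : ℕ => (N : ℝ) ^ s := by
  have hlog : (fun y : ℝ => Real.log y) =o[atTop] fun y : ℝ => y ^ (2 * (s - α)) :=
    isLittleO_log_rpow_atTop (by linarith)
  have hlogN := (hlog.comp_tendsto (tendsto_natCast_atTop_atTop (R := ℝ))).bound
    (by norm_num : (0:ℝ) < 1)
  refine IsBigO.of_bound 10 ?_
  filter_upwards [upper_growth hτ hα h1 h2 hx, hlogN, eventually_ge_atTop 1] with N hN1 hN2 hN3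
  simp only [Function.comp_apply] at hN2
  have hNR : (1:ℝ) ≤ N := by exact_mod_cast hN3
  have hNpos : (0:ℝ) < N := by linarith
  rw [Real.norm_of_nonneg (Real.log_nonneg hNR), Real.norm_of_nonneg (by positivity), one_mul] at hN2
  rw [Real.norm_of_nonneg (norm_nonneg _), Real.norm_of_nonneg (by positivity)]
  have h3 : 1 + Real.log N ≤ 2 * (N : ℝ) ^ (2 * (s - α)) := by
    have : 1 ≤ (N : ℝ) ^ (2 * (s - α)) := Real.one_le_rpow hNR (by linarith)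
    linarith
  have h4 : ‖T x N‖ ^ 2 ≤ (10 * (N : ℝ) ^ s) ^ 2 := by
    calc ‖T x N‖ ^ 2 ≤ 25 * (N : ℝ) ^ (2 * α) * (1 + Real.log N) := hN1
      _ ≤ 25 * (N : ℝ) ^ (2 * α) * (2 * (N : ℝ) ^ (2 * (s - α))) := by gcongr
      _ = 50 * (N : ℝ) ^ (2 * s) := by
        rw [show 2 * s = 2 * α + 2 * (s - α) by ring, Real.rpow_add hNpos]; ring
      _ ≤ 100 * (N : ℝ) ^ (2 * s) := by gcongr; norm_num
      _ = (10 * (N : ℝ) ^ s) ^ 2 := by
        rw [mul_pow, ← Real.rpow_natCast ((N : ℝ) ^ s), ← Real.rpow_mul hNpos.le]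
        rw [show s * ((2:ℕ):ℝ) = 2 * s by push_cast; ring]
        norm_num
  exact le_of_sq_le_sq h4 (by positivity)

end Q272.MF
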