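import Mathlib

/-! Quadratic Weyl sums near a rational point. -/

namespace Q272.MF

open Complex Finset

/-- `e(t) = exp(2π i t)`. -/
noncomputable def e (t : ℝ) : ℂ := cexp (2 * Real.pi * t * I)

theorem e_add (s t : ℝ) : e (s + t) = e s * e t := by
  unfold e; rw [← Complex.exp_add]; congr 1; push_cast; ring

theorem e_zero : e 0 = 1 := by simp [e]

theorem norm_e (t : ℝ) : ‖e t‖ = 1 := by
  unfold e
  have : (2 * Real.pi * t * I : ℂ) = ((2 * Real.pi * t : ℝ) : ℂ) * I := by push_cast; ring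
  rw [this, Complex.norm_exp_ofReal_mul_I]

theorem e_int (m : ℤ) : e m = 1 := by
  unfold e
  have : (2 * Real.pi * ((m : ℝ) : ℂ) * I : ℂ) = m * (2 * Real.pi * I) := by push_cast; ring
  rw [this, Complex.exp_int_mul_two_pi_mul_I]

theorem e_add_int (t : ℝ) (m : ℤ) : e (t + m) = e t := by
  rw [e_add, e_int, mul_one]

theorem e_neg (t : ℝ) : e (-t) = (starRingEnd ℂ) (e t) := by
  unfold e
  rw [← Complex.exp_conj]
  congr 1
  simp only [map_mul, Complex.conj_ofReal, Complex.conj_I, map_ofNat]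
  push_cast
  ring

theorem e_nat_mul (n : ℕ) (t : ℝ) : e (n * t) = e t ^ n := by
  unfold e
  rw [← Complex.exp_nat_mul]
  congr 1
  push_cast
  ring

theorem norm_e_sub_one_eq (t : ℝ) : ‖e t - 1‖ = ‖2 * Real.sin (Real.pi * t)‖ := by
  unfold e
  have : (2 * Real.pi * t * I : ℂ) = I * ((2 * Real.pi * t : ℝ) : ℂ) := by push_cast; ring
  rw [this, Complex.norm_exp_I_mul_ofReal_sub_one]
  congr 3
  ring

theorem norm_e_sub_one_le (t : ℝ) : ‖e t - 1‖ ≤ 2 * Real.pi * |t| := by
  unfold e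
  have : (2 * Real.pi * t * I : ℂ) = I * ((2 * Real.pi * t : ℝ) : ℂ) := by push_cast; ring
  rw [this]
  refine le_trans (Real.norm_exp_I_mul_ofReal_sub_one_le) ?_
  rw [Real.norm_eq_abs, abs_mul, abs_of_nonneg (by positivity : (0:ℝ) ≤ 2 * Real.pi)]

theorem norm_e_sub_le (s t : ℝ) : ‖e s - e t‖ ≤ 2 * Real.pi * |s - t| := by
  have h : e s - e t = e t * (e (s - t) - 1) := by
    rw [mul_sub, ← e_add, mul_one]; congr 2; ring
  rw [h, norm_mul, norm_e, one_mul]
  exact norm_e_sub_one_le _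

/-- `|e(t) - 1| ≥ 4 t` for `0 ≤ t ≤ 1/2`. -/
theorem norm_e_sub_one_ge {t : ℝ} (h0 : 0 ≤ t) (ht : t ≤ 1 / 2) : 4 * t ≤ ‖e t - 1‖ := by
  rw [norm_e_sub_one_eq, Real.norm_eq_abs]
  have h1 : 2 / Real.pi * (Real.pi * t) ≤ Real.sin (Real.pi * t) := by
    refine Real.mul_le_sin (by positivity) ?_
    nlinarith [Real.pi_pos]
  have h2 : 2 / Real.pi * (Real.pi * t) = 2 * t := by
    field_simp
  rw [h2] at h1
  have := le_abs_self (2 * Real.sin (Real.pi * t))
  linarith

/-- `|e(t) - 1| ≥ 4 (1 - t)` for `1/2 ≤ t ≤ 1`. -/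
theorem norm_e_sub_one_ge' {t : ℝ} (h0 : 1 / 2 ≤ t) (ht : t ≤ 1) : 4 * (1 - t) ≤ ‖e t - 1‖ := by
  have h1 : ‖e t - 1‖ = ‖e (1 - t) - 1‖ := by
    rw [norm_e_sub_one_eq, norm_e_sub_one_eq]
    congr 2
    have : Real.pi * (1 - t) = Real.pi - Real.pi * t := by ring
    rw [this, Real.sin_pi_sub]
  rw [h1]
  exact norm_e_sub_one_ge (by linarith) (by linarith)

theorem geom_bound (K : ℕ) (θ : ℝ) {δ : ℝ} (hδ : 0 < δ) (h : δ ≤ ‖e θ - 1‖) :
    ‖∑ n ∈ range K, e (n * θ)‖ ≤ 2 / δ := by
  have hne : e θ ≠ 1 := by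
    intro h'
    rw [h', sub_self, norm_zero] at h
    linarith
  have h1 : ∑ n ∈ range K, e (n * θ) = (e θ ^ K - 1) / (e θ - 1) := by
    rw [← geom_sum_eq hne]
    exact Finset.sum_congr rfl fun n _ => e_nat_mul n θ
  rw [h1, norm_div]
  have h2 : ‖e θ ^ K - 1‖ ≤ 2 := by
    refine (norm_sub_le _ _).trans ?_
    rw [norm_pow, norm_e, one_pow, norm_one]
    norm_num
  gcongr

theorem triv_bound (K : ℕ) (f : ℕ → ℝ) : ‖∑ n ∈ range K, e (f n)‖ ≤ K := by
  refine (norm_sum_le _ _).trans ?_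
  simp [norm_e]

/-- The quadratic Weyl sum. -/
noncomputable def T (x : ℝ) (N : ℕ) : ℂ := ∑ n ∈ range N, e (x * ((n : ℝ) + 1) ^ 2)

/-- Diagonal rearrangement. -/
theorem diag (F : ℕ → ℕ → ℂ) (N : ℕ) :
    ∑ m ∈ range N, ∑ n ∈ range m, F n m =
      ∑ h ∈ range N, ∑ n ∈ range (N - 1 - h), F n (n + h + 1) := by
  induction N with
  | zero => simp
  | succ N ih =>
    rw [Finset.sum_range_succ, ih]
    rw [Finset.sum_range_succ (fun h => ∑ n ∈ range (N + 1 - 1 - h), F n (n + h + 1)) N]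
    simp only [Nat.add_sub_cancel, Nat.sub_self, range_zero, sum_empty, add_zero]
    have h1 : ∀ h ∈ range N, ∑ n ∈ range (N - h), F n (n + h + 1) =
        ∑ n ∈ range (N - 1 - h), F n (n + h + 1) + F (N - 1 - h) N := by
      intro h hh
      rw [mem_range] at hh
      have h2 : N - h = (N - 1 - h) + 1 := by omega
      rw [h2, Finset.sum_range_succ]
      congr 2
      omega
    rw [Finset.sum_congr rfl h1, Finset.sum_add_distrib]
    congr 1
    exact (Finset.sum_range_reflect (fun j => F j N) N).symm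

theorem normSq_T (x : ℝ) (N : ℕ) :
    ‖T x N‖ ^ 2 = N + 2 * (∑ m ∈ range N, ∑ n ∈ range m,
      e (x * ((n : ℝ) + 1) ^ 2) * (starRingEnd ℂ) (e (x * ((m : ℝ) + 1) ^ 2))).re := by
  induction N with
  | zero => simp [T]
  | succ N ih =>
    have h1 : T x (N + 1) = T x N + e (x * ((N : ℝ) + 1) ^ 2) := by
      unfold T; rw [Finset.sum_range_succ]
    rw [Finset.sum_range_succ, h1, ← Complex.normSq_eq_norm_sq, Complex.normSq_add,
      Complex.normSq_eq_norm_sq, Complex.normSq_eq_norm_sq, norm_e, ih]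
    have h2 : ∑ n ∈ range N, e (x * ((n : ℝ) + 1) ^ 2) *
        (starRingEnd ℂ) (e (x * ((N : ℝ) + 1) ^ 2)) =
        T x N * (starRingEnd ℂ) (e (x * ((N : ℝ) + 1) ^ 2)) := by
      unfold T; rw [Finset.sum_mul]
    rw [h2, Complex.add_re]
    push_cast
    ring

/-- Weyl differencing. -/
theorem weyl_diff (x : ℝ) (N : ℕ) :
    ‖T x N‖ ^ 2 ≤ N + 2 * ∑ h ∈ range N,
      ‖∑ n ∈ range (N - 1 - h), e (n * (2 * x * ((h : ℝ) + 1)))‖ := by
  rw [normSq_T, diag (fun n m => e (x * ((n : ℝ) + 1) ^ 2) *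
    (starRingEnd ℂ) (e (x * ((m : ℝ) + 1) ^ 2)))]
  have h1 : ∀ h ∈ range N, ‖∑ n ∈ range (N - 1 - h), e (x * ((n : ℝ) + 1) ^ 2) *
      (starRingEnd ℂ) (e (x * (((n + h + 1 : ℕ) : ℝ) + 1) ^ 2))‖ =
      ‖∑ n ∈ range (N - 1 - h), e (n * (2 * x * ((h : ℝ) + 1)))‖ := by
    intro h _
    rw [← Complex.norm_conj, map_sum]
    have h2 : ∀ n ∈ range (N - 1 - h), (starRingEnd ℂ) (e (x * ((n : ℝ) + 1) ^ 2) *
      (starRingEnd ℂ) (e (x * (((n + h + 1 : ℕ) : ℝ) + 1) ^ 2))) =
        e (x * ((h : ℝ) + 1) * (h + 3)) * e (n * (2 * x * ((h : ℝ) + 1))) := by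
      intro n _
      rw [map_mul, Complex.conj_conj, ← e_neg, ← e_add, ← e_add]
      congr 1
      push_cast
      ring
    rw [Finset.sum_congr rfl h2, ← Finset.mul_sum, norm_mul, norm_e, one_mul]
  have h3 : (∑ h ∈ range N, ∑ n ∈ range (N - 1 - h), e (x * ((n : ℝ) + 1) ^ 2) *
      (starRingEnd ℂ) (e (x * (((n + h + 1 : ℕ) : ℝ) + 1) ^ 2))).re ≤
      ∑ h ∈ range N, ‖∑ n ∈ range (N - 1 - h), e (n * (2 * x * ((h : ℝ) + 1)))‖ := by
    refine (Complex.re_le_norm _).trans ((norm_sum_le _ _).trans ?_)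
    exact le_of_eq (Finset.sum_congr rfl h1)
  linarith

theorem sum_blocks (f : ℕ → ℝ) (L M : ℕ) :
    ∑ h ∈ range (L * M), f h = ∑ q ∈ range L, ∑ r ∈ range M, f (q * M + r) := by
  induction L with
  | zero => simp
  | succ L ih => rw [Nat.succ_mul, Finset.sum_range_add, ih, Finset.sum_range_succ]

theorem sum_perm (f : ℕ → ℝ) {p M : ℕ} (hM : 0 < M) (hp : Nat.Coprime p M) :
    ∑ r ∈ range M, f (p * r % M) = ∑ r ∈ range M, f r := by
  have hinj : Set.InjOn (fun r => p * r % M) (range M : Set ℕ) := by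
    intro a ha b hb hab
    simp only [coe_range, Set.mem_Iio] at ha hb
    have h1 : p * a ≡ p * b [MOD M] := hab
    have h2 : a ≡ b [MOD M] := Nat.ModEq.cancel_left_of_coprime (by
      rw [Nat.Coprime, Nat.gcd_comm] at hp; exact hp) h1
    unfold Nat.ModEq at h2
    rwa [Nat.mod_eq_of_lt ha, Nat.mod_eq_of_lt hb] at h2
  have himg : (range M).image (fun r => p * r % M) = range M := by
    apply Finset.eq_of_subset_of_card_le
    · intro y hy
      rw [mem_image] at hy
      obtain ⟨a, _, rfl⟩ := hy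
      exact mem_range.2 (Nat.mod_lt _ hM)
    · rw [Finset.card_image_of_injOn hinj]
  conv_rhs => rw [← himg]
  rw [Finset.sum_image hinj]

theorem sum_inv_le (n : ℕ) : ∑ i ∈ Icc 1 n, (1 / (i : ℝ)) ≤ 1 + Real.log n := by
  have h := harmonic_le_one_add_log n
  rw [harmonic_eq_sum_Icc] at h
  push_cast at h
  simpa [one_div] using h

/-- The bound function on residues. -/
noncomputable def F (M : ℕ) (r : ℕ) : ℝ :=
  if r = 0 then 0 else M * (1 / (r : ℝ) + 1 / ((M : ℝ) - r))

theorem sum_F {M : ℕ} (hM : 0 < M) : ∑ r ∈ range M, F M r ≤ 2 * M * (1 + Real.log M) := by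
  have h1 : ∑ r ∈ range M, F M r = ∑ r ∈ Ico 1 M, F M r := by
    rw [Finset.range_eq_Ico, Finset.sum_eq_sum_Ico_succ_bot hM]
    simp [F]
  rw [h1]
  have h2 : ∑ r ∈ Ico 1 M, F M r = M * (∑ r ∈ Ico 1 M, (1 / (r : ℝ)) +
      ∑ r ∈ Ico 1 M, (1 / ((M : ℝ) - r))) := by
    rw [← Finset.sum_add_distrib, Finset.mul_sum]
    refine Finset.sum_congr rfl fun r hr => ?_
    rw [mem_Ico] at hr
    rw [F, if_neg (by omega)]
  have h3 : ∑ r ∈ Ico 1 M, (1 / ((M : ℝ) - r)) = ∑ r ∈ Ico 1 M, (1 / (r : ℝ)) := by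
    refine Finset.sum_nbij' (fun r => M - r) (fun r => M - r) ?_ ?_ ?_ ?_ ?_
    · intro r hr; rw [mem_Ico] at hr ⊢; omega
    · intro r hr; rw [mem_Ico] at hr ⊢; omega
    · intro r hr; rw [mem_Ico] at hr; omega
    · intro r hr; rw [mem_Ico] at hr; omega
    · intro r hr
      rw [mem_Ico] at hr
      rw [Nat.cast_sub hr.2.le]
  have h4 : ∑ r ∈ Ico 1 M, (1 / (r : ℝ)) ≤ 1 + Real.log M := by
    refine le_trans ?_ (sum_inv_le M)
    refine Finset.sum_le_sum_of_subset_of_nonneg ?_ ?_
    · intro r hr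
      rw [mem_Ico] at hr
      rw [mem_Icc]; omega
    · intros; positivity
  rw [h2, h3]
  have hM' : (0:ℝ) < M := by exact_mod_cast hM
  nlinarith

/-- The main upper bound for the quadratic Weyl sum close to a rational. -/
theorem weyl_upper {p M N : ℕ} (hM : 0 < M) (hp : Nat.Coprime p M) {β x : ℝ} (hβ : 0 < β)
    (hβN : 4 * β * N * M ≤ 1) (hx : x = p / (2 * M) + β) :
    ‖T x N‖ ^ 2 ≤ N + 2 * (((N / M : ℕ) + 1) * (2 * M * (1 + Real.log M)) +
      min ((N : ℝ) * (N / M : ℕ)) (1 / (4 * β * M) * (1 + Real.log N))) := by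
  have hM' : (0:ℝ) < M := by exact_mod_cast hM
  refine (weyl_diff x N).trans ?_
  -- the bound for each `h`
  set G : ℕ → ℝ := fun q => if q = 0 then 0 else min (N : ℝ) (1 / (4 * β * M * q)) with hG
  set B : ℕ → ℝ := fun h => if M ∣ h then G (h / M) else F M (p * h % M) with hB
  have hG0 : ∀ q, 0 ≤ G q := by
    intro q
    simp only [hG]
    split_ifs
    · exact le_refl _
    · positivity
  have hF0 : ∀ r, r < M → 0 ≤ F M r := by
    intro r hr
    unfold F
    split_ifs
    · exact le_refl _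
    · have : (0:ℝ) < (M : ℝ) - r := by
        have : (r : ℝ) < M := by exact_mod_cast hr
        linarith
      positivity
  have hB0 : ∀ h, 0 ≤ B h := by
    intro h
    simp only [hB]
    split_ifs
    · exact hG0 _
    · exact hF0 _ (Nat.mod_lt _ hM)
  have key : ∀ h ∈ range N, ‖∑ n ∈ range (N - 1 - h), e (n * (2 * x * ((h : ℝ) + 1)))‖ ≤
      B (h + 1) := by
    intro h hh
    rw [mem_range] at hh
    have hh1 : ((h : ℝ) + 1) ≤ N := by exact_mod_cast hh
    have hb : 2 * β * ((h : ℝ) + 1) ≤ 1 / (2 * M) := by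
      rw [le_div_iff₀ (by positivity)]
      have : β * ((h : ℝ) + 1) * M ≤ β * N * M := by gcongr
      nlinarith
    have hbpos : 0 < 2 * β * ((h : ℝ) + 1) := by positivity
    have hM1 : (1:ℝ) ≤ M := by exact_mod_cast hM
    have hhalf : 1 / (2 * (M:ℝ)) ≤ 1 / 2 := by
      rw [div_le_div_iff₀ (by positivity) (by norm_num)]
      linarith
    -- the reduced angle
    have hmod : (p * (h + 1) : ℕ) = M * (p * (h + 1) / M) + p * (h + 1) % M :=
      (Nat.div_add_mod _ _).symm
    have hmodR : (p : ℝ) * ((h : ℝ) + 1) = M * ((p * (h + 1) / M : ℕ) : ℝ) +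
        ((p * (h + 1) % M : ℕ) : ℝ) := by
      exact_mod_cast hmod
    have he : e (2 * x * ((h : ℝ) + 1)) =
        e (((p * (h + 1) % M : ℕ) : ℝ) / M + 2 * β * ((h : ℝ) + 1)) := by
      have h4 : 2 * x * ((h : ℝ) + 1) = (((p * (h + 1) % M : ℕ) : ℝ) / M +
          2 * β * ((h : ℝ) + 1)) + (((p * (h + 1) / M : ℕ) : ℤ) : ℝ) := by
        rw [hx]
        have : 2 * ((p : ℝ) / (2 * M) + β) * ((h : ℝ) + 1) =
            (p : ℝ) * ((h : ℝ) + 1) / M + 2 * β * ((h : ℝ) + 1) := by
          field_simp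
        rw [this, hmodR, add_div]
        have h5 : (M : ℝ) * (((p * (h + 1) / M : ℕ) : ℝ)) / M = ((p * (h + 1) / M : ℕ) : ℝ) := by
          field_simp
        rw [h5, Int.cast_natCast]
        ring
      rw [h4, e_add_int]
    set r := p * (h + 1) % M with hr
    have hrM : r < M := Nat.mod_lt _ hM
    have hrMR : (r : ℝ) + 1 ≤ M := by exact_mod_cast hrM
    simp only [hB]
    split_ifs with hdvd
    · -- `M ∣ h + 1`
      obtain ⟨q, hq⟩ := hdvd
      have hq0 : q ≠ 0 := by rintro rfl; omega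
      have hqdiv : (h + 1) / M = q := by rw [hq]; exact Nat.mul_div_cancel_left q hM
      have hr0 : r = 0 := by
        rw [hr, hq]
        rw [show p * (M * q) = M * (p * q) by ring]
        exact Nat.mul_mod_right _ _
      rw [hqdiv]
      simp only [hG, if_neg hq0]
      refine le_min ?_ ?_
      · refine (triv_bound _ _).trans ?_
        exact_mod_cast (by omega : N - 1 - h ≤ N)
      · rw [hr0] at he
        have h6 : 4 * (2 * β * ((h : ℝ) + 1)) ≤ ‖e (2 * x * ((h : ℝ) + 1)) - 1‖ := by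
          rw [he]
          simp only [Nat.cast_zero, zero_div, zero_add]
          exact norm_e_sub_one_ge hbpos.le (by linarith)
        refine (geom_bound _ _ (by positivity) h6).trans (le_of_eq ?_)
        have h7 : ((h : ℝ) + 1) = M * q := by exact_mod_cast hq
        rw [h7]
        field_simp
    · -- `M ∤ h + 1`
      have hr0 : r ≠ 0 := by
        intro h0
        apply hdvd
        have h8 : M ∣ p * (h + 1) := Nat.dvd_of_mod_eq_zero h0
        exact (Nat.Coprime.dvd_of_dvd_mul_left (Nat.Coprime.symm hp) h8)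
      have hr1 : (1:ℝ) ≤ r := by exact_mod_cast Nat.one_le_iff_ne_zero.2 hr0
      rw [F, if_neg hr0]
      set t := (r : ℝ) / M + 2 * β * ((h : ℝ) + 1) with ht
      have ht1 : (r : ℝ) / M ≤ t := by rw [ht]; linarith
      have ht2 : ((M : ℝ) - r) / (2 * M) ≤ 1 - t := by
        have h9 : 1 - (r : ℝ) / M - 1 / (2 * M) ≤ 1 - t := by rw [ht]; linarith
        refine le_trans ?_ h9
        have h10 : 1 - (r : ℝ) / M - 1 / (2 * M) - ((M : ℝ) - r) / (2 * M) =
            ((M : ℝ) - r - 1) / (2 * M) := by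
          field_simp; ring
        have h11 : 0 ≤ ((M : ℝ) - r - 1) / (2 * M) := by
          apply div_nonneg <;> linarith
        linarith
      have ht0 : 0 ≤ t := le_trans (by positivity) ht1
      have hMr : (0:ℝ) < (M : ℝ) - r := by linarith
      have ht3 : 0 < ((M : ℝ) - r) / (2 * M) := by positivity
      rcases le_total t (1 / 2) with hlt | hlt
      · have h12 := norm_e_sub_one_ge ht0 hlt
        have h13 : 4 * ((r : ℝ) / (2 * M)) ≤ ‖e (2 * x * ((h : ℝ) + 1)) - 1‖ := by
          rw [he]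
          refine le_trans ?_ h12
          have : (r : ℝ) / (2 * M) ≤ (r : ℝ) / M := by
            gcongr; linarith
          linarith
        refine (geom_bound _ _ (by positivity) h13).trans ?_
        have h14 : 2 / (4 * ((r : ℝ) / (2 * M))) = M * (1 / (r : ℝ)) := by
          field_simp; norm_num
        rw [h14]
        have h15 : 0 ≤ (M : ℝ) * (1 / ((M : ℝ) - r)) := by positivity
        rw [mul_add]
        linarith
      · have h12 := norm_e_sub_one_ge' hlt (by linarith)
        have h13 : 4 * (((M : ℝ) - r) / (2 * M)) ≤ ‖e (2 * x * ((h : ℝ) + 1)) - 1‖ := by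
          rw [he]
          refine le_trans ?_ h12
          linarith
        refine (geom_bound _ _ (by positivity) h13).trans ?_
        have h14 : 2 / (4 * (((M : ℝ) - r) / (2 * M))) = M * (1 / ((M : ℝ) - r)) := by
          field_simp; norm_num
        rw [h14]
        have h15 : 0 ≤ (M : ℝ) * (1 / (r : ℝ)) := by positivity
        rw [mul_add]
        linarith
  have hsum1 : ∑ h ∈ range N, ‖∑ n ∈ range (N - 1 - h), e (n * (2 * x * ((h : ℝ) + 1)))‖ ≤
      ∑ h ∈ range ((N / M + 1) * M), B h := by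
    refine (Finset.sum_le_sum key).trans ?_
    have h16 : ∑ h ∈ range N, B (h + 1) = ∑ h ∈ Ico 1 (N + 1), B h := by
      rw [Finset.range_eq_Ico, Finset.sum_Ico_add' (fun h => B h) 0 N 1]
    rw [h16]
    refine Finset.sum_le_sum_of_subset_of_nonneg ?_ ?_
    · intro h hh
      rw [mem_Ico] at hh
      rw [mem_range]
      have h17 : N < (N / M + 1) * M := by
        have := Nat.lt_div_mul_add hM (a := N)
        rw [Nat.succ_mul]; exact this
      omega
    · intro h _ _; exact hB0 h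
  have hsum2 : ∑ h ∈ range ((N / M + 1) * M), B h ≤
      ((N / M : ℕ) + 1) * (2 * M * (1 + Real.log M)) + ∑ q ∈ range (N / M + 1), G q := by
    rw [sum_blocks]
    have h18 : ∀ q ∈ range (N / M + 1), ∑ r ∈ range M, B (q * M + r) ≤
        2 * M * (1 + Real.log M) + G q := by
      intro q _
      have h19 : ∀ r ∈ range M, B (q * M + r) ≤ F M (p * r % M) + if r = 0 then G q else 0 := by
        intro r hr
        rw [mem_range] at hr
        simp only [hB]
        by_cases hr0 : r = 0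
        · subst hr0
          rw [if_pos (by simp), if_pos rfl]
          simp only [add_zero, mul_zero, Nat.zero_mod]
          rw [Nat.mul_div_cancel _ hM]
          have := hF0 0 hM
          linarith
        · have hnd : ¬ M ∣ q * M + r := by
            intro hd
            have h20 : M ∣ r := (Nat.dvd_add_right (Dvd.intro_left q rfl)).1 hd
            exact hr0 (Nat.eq_zero_of_dvd_of_lt h20 hr)
          rw [if_neg hnd, if_neg hr0, add_zero]
          have h21 : p * (q * M + r) % M = p * r % M := by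
            rw [show p * (q * M + r) = p * r + M * (p * q) by ring, Nat.add_mul_mod_self_left]
          rw [h21]
      refine (Finset.sum_le_sum h19).trans ?_
      rw [Finset.sum_add_distrib, sum_perm (F M) hM hp]
      have h22 : ∑ r ∈ range M, (if r = 0 then G q else 0) = G q := by
        rw [Finset.sum_ite_eq' (range M) 0 (fun _ => G q), if_pos (mem_range.2 hM)]
      rw [h22]
      have := sum_F hM
      linarith
    refine (Finset.sum_le_sum h18).trans (le_of_eq ?_)
    rw [Finset.sum_add_distrib, Finset.sum_const, card_range, nsmul_eq_mul]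
    push_cast
    ring
  have hsum3 : ∑ q ∈ range (N / M + 1), G q ≤
      min ((N : ℝ) * (N / M : ℕ)) (1 / (4 * β * M) * (1 + Real.log N)) := by
    have h23 : ∑ q ∈ range (N / M + 1), G q = ∑ q ∈ Icc 1 (N / M), G q := by
      rw [Finset.range_eq_Ico, Finset.sum_eq_sum_Ico_succ_bot (Nat.succ_pos _)]
      simp only [hG, if_true, zero_add]
      rfl
    rw [h23]
    refine le_min ?_ ?_
    · have h24 : ∀ q ∈ Icc 1 (N / M), G q ≤ N := by
        intro q hq
        rw [mem_Icc] at hq
        simp only [hG, if_neg (by omega : q ≠ 0)]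
        exact min_le_left _ _
      refine (Finset.sum_le_sum h24).trans (le_of_eq ?_)
      rw [Finset.sum_const, Nat.card_Icc, nsmul_eq_mul]
      simp only [Nat.add_sub_cancel]
      ring
    · have h24 : ∀ q ∈ Icc 1 (N / M), G q ≤ 1 / (4 * β * M) * (1 / (q : ℝ)) := by
        intro q hq
        rw [mem_Icc] at hq
        simp only [hG, if_neg (by omega : q ≠ 0)]
        refine (min_le_right _ _).trans (le_of_eq ?_)
        have : (q : ℝ) ≠ 0 := by
          have : q ≠ 0 := by omega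
          exact_mod_cast this
        field_simp
      refine (Finset.sum_le_sum h24).trans ?_
      rw [← Finset.mul_sum]
      refine mul_le_mul_of_nonneg_left ?_ (by positivity)
      have h25 := sum_inv_le N
      refine le_trans ?_ h25
      refine Finset.sum_le_sum_of_subset_of_nonneg ?_ ?_
      · intro r hr
        rw [mem_Icc] at hr ⊢
        exact ⟨hr.1, hr.2.trans (Nat.div_le_self _ _)⟩
      · intros; positivity
  linarith

end Q272.MF
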